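import Pool.Agent.W301.SS.Asym
import Pool.Agent.W301.SS.Count

set_option autoImplicit false

/-! The sum of the primes between two multiples of `N`. -/

namespace Pool.Agent.NH15.SD

open Finset Filter
open Pool.Agent.W301.SS (ev_L ev_log)

/-- the sum of `p log p` over the primes up to `M` -/
noncomputable def GG (M : ℕ) : ℝ := ∑ p ∈ (Ioc 0 M).filter Nat.Prime, (p : ℝ) * Real.log p

lemma theta_nat (M : ℕ) : Chebyshev.theta (M : ℝ) = ∑ p ∈ (Ioc 0 M).filter Nat.Prime, Real.log (p : ℝ) := by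
  unfold Chebyshev.theta
  rw [Nat.floor_natCast]

lemma GG_eq (M : ℕ) : GG M = ∑ j ∈ range M, (Chebyshev.theta (M : ℝ) - Chebyshev.theta (j : ℝ)) := by
  have h1 : ∀ j ∈ range M, Chebyshev.theta (M : ℝ) - Chebyshev.theta (j : ℝ) =
      ∑ p ∈ (Ioc 0 M).filter Nat.Prime, (if j < p then Real.log (p : ℝ) else 0) := by
    intro j hj
    rw [mem_range] at hj
    rw [theta_nat, theta_nat, ← sum_filter, sub_eq_iff_eq_add, ← sum_union]
    · apply sum_congr _ fun _ _ => rfl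
      ext p
      simp only [mem_union, mem_filter, mem_Ioc]
      constructor
      · rintro ⟨⟨h1, h2⟩, h3⟩
        rcases lt_or_ge j p with h | h
        · exact Or.inl ⟨⟨⟨h1, h2⟩, h3⟩, h⟩
        · exact Or.inr ⟨⟨h1, h⟩, h3⟩
      · rintro (⟨⟨⟨h1, h2⟩, h3⟩, h⟩ | ⟨⟨h1, h⟩, h3⟩)
        · exact ⟨⟨h1, h2⟩, h3⟩
        · exact ⟨⟨h1, by omega⟩, h3⟩
    · rw [disjoint_left]
      intro p hp hp2
      simp only [mem_filter, mem_Ioc] at hp hp2
      omega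
  rw [sum_congr rfl h1, sum_comm]
  unfold GG
  apply sum_congr rfl
  intro p hp
  simp only [mem_filter, mem_Ioc] at hp
  rw [← sum_filter, sum_const, nsmul_eq_mul]
  congr 1
  have : (range M).filter (fun j => j < p) = range p := by
    ext j
    simp only [mem_filter, mem_range]
    omega
  rw [this, card_range]

lemma GG_asym (M : ℕ) (E : ℝ) (h : ∀ j : ℕ, j ≤ M → |Chebyshev.theta (j : ℝ) - j| ≤ E) :
    |GG M - (M : ℝ) ^ 2 / 2| ≤ M * (2 * E + 1) := by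
  have h0 : ∑ j ∈ range M, ((M : ℝ) - j) = (M : ℝ) * (M + 1) / 2 := by
    rw [sum_sub_distrib, sum_const, card_range, nsmul_eq_mul]
    have h1 : ∑ j ∈ range M, (j : ℝ) = (M : ℝ) * (M - 1) / 2 := by
      clear h
      induction M with
      | zero => simp
      | succ n ih =>
        rw [sum_range_succ, ih]
        push_cast
        ring
    rw [h1]
    ring
  have h1 : |GG M - (M : ℝ) * (M + 1) / 2| ≤ M * (2 * E) := by
    rw [GG_eq, ← h0, ← sum_sub_distrib]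
    refine (abs_sum_le_sum_abs _ _).trans ?_
    calc ∑ j ∈ range M, |Chebyshev.theta (M : ℝ) - Chebyshev.theta (j : ℝ) - ((M : ℝ) - j)| ≤
          ∑ _j ∈ range M, 2 * E := by
          apply sum_le_sum
          intro j hj
          rw [mem_range] at hj
          have a1 := abs_le.1 (h M le_rfl)
          have a2 := abs_le.1 (h j hj.le)
          rw [abs_le]
          constructor <;> linarith [a1.1, a1.2, a2.1, a2.2]
      _ = _ := by rw [sum_const, card_range, nsmul_eq_mul]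
  have h2 := abs_le.1 h1
  have hM : (0 : ℝ) ≤ M := Nat.cast_nonneg M
  rw [abs_le]
  constructor <;> nlinarith [h2.1, h2.2]

/-- the sum of the primes in `(⌊u⌋, ⌊v⌋]` -/
noncomputable def SP (u v : ℝ) : ℝ := ∑ p ∈ (Ioc ⌊u⌋₊ ⌊v⌋₊).filter Nat.Prime, (p : ℝ)

lemma SP_log (B : ℕ) (hB : 1 ≤ B) (ε : ℝ) (hε : 0 < ε) : ∀ᶠ N : ℕ in atTop, ∀ u v : ℝ, 0 ≤ u → u ≤ v → v ≤ 4 * (B * N) →
    |(∑ p ∈ (Ioc ⌊u⌋₊ ⌊v⌋₊).filter Nat.Prime, (p : ℝ) * Real.log p) - (v ^ 2 - u ^ 2) / 2| ≤ ε * (N : ℝ) ^ 2 := by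
  have ht : Tendsto (fun N : ℕ => B * N) atTop atTop := Filter.tendsto_atTop_mono (fun n => Nat.le_mul_of_pos_left n (by omega)) tendsto_id
  have hBr : (1 : ℝ) ≤ B := by exact_mod_cast hB
  filter_upwards [ht.eventually (Pool.Agent.W301.SS.pnt_unif 1), ht.eventually (ev_L (64 * B ^ 2 / ε + 1)),
    eventually_ge_atTop (⌈64 * B / ε⌉₊ + 1)] with N h1 h2 hN u v hu huv hv
  obtain ⟨E, hE⟩ : ∃ E : ℝ, E = ((B * N : ℕ) : ℝ) / Real.log ((B * N : ℕ) : ℝ) ^ 1 := ⟨_, rfl⟩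
  rw [← hE] at h1
  have hN0 : (0 : ℝ) < N := by exact_mod_cast (by omega : 0 < N)
  have hNb : 64 * B / ε ≤ N := by
    have h3 : (⌈64 * B / ε⌉₊ : ℝ) ≤ N := by exact_mod_cast (by omega : ⌈64 * B / ε⌉₊ ≤ N)
    exact (Nat.le_ceil _).trans h3
  rw [div_le_iff₀ hε] at hNb
  have hL0 : 0 < Real.log ((B * N : ℕ) : ℝ) := by
    have : 0 < 64 * (B : ℝ) ^ 2 / ε := by positivity
    linarith
  have hE0 : E * (64 * B ^ 2 / ε) ≤ B * N := by
    rw [hE, pow_one, div_mul_eq_mul_div, div_le_iff₀ hL0]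
    push_cast
    apply mul_le_mul_of_nonneg_left _ (by positivity)
    push_cast at h2
    linarith
  have hE1 : 64 * B * E ≤ ε * N := by
    have h3 : E * (64 * B ^ 2 / ε) = 64 * B * E * B / ε := by ring
    rw [h3, div_le_iff₀ hε] at hE0
    have h4 : 64 * B * E * B ≤ ε * N * B := by linarith
    exact le_of_mul_le_mul_right h4 (by linarith)
  have hE2 : 0 ≤ E := by rw [hE]; positivity
  -- the two values
  have hg : ∀ w : ℝ, 0 ≤ w → w ≤ 4 * (B * N) → |GG ⌊w⌋₊ - w ^ 2 / 2| ≤ ε / 2 * (N : ℝ) ^ 2 := by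
    intro w hw hw2
    have h3 : (⌊w⌋₊ : ℝ) ≤ w := Nat.floor_le hw
    have h4 : w < ⌊w⌋₊ + 1 := Nat.lt_floor_add_one w
    have h5 := GG_asym ⌊w⌋₊ E (by
      intro j hj
      apply h1 j
      have h6 : ((j : ℕ) : ℝ) ≤ ((4 * (B * N) : ℕ) : ℝ) := by
        push_cast
        have : (j : ℝ) ≤ ⌊w⌋₊ := by exact_mod_cast hj
        linarith
      exact_mod_cast h6)
    have h6 := abs_le.1 h5
    have hM0 : (0 : ℝ) ≤ ⌊w⌋₊ := Nat.cast_nonneg _
    obtain ⟨M, hM⟩ : ∃ M : ℝ, M = (⌊w⌋₊ : ℝ) := ⟨_, rfl⟩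
    rw [← hM] at h3 h4 h6 hM0
    have h7 : M * (2 * E + 1) ≤ 4 * (B * N) * (2 * E + 1) := by
      apply mul_le_mul_of_nonneg_right _ (by positivity)
      linarith
    have h8 : 4 * (B * N) * (2 * E + 1) + 4 * (B * N) ≤ ε / 4 * (N : ℝ) ^ 2 := by
      have e1 : 4 * (B * N) * (2 * E + 1) + 4 * (B * N) = N * (8 * B * E + 8 * B) := by ring
      rw [e1]
      have e2 : 8 * B * E + 8 * B ≤ ε / 4 * N := by linarith
      calc (N : ℝ) * (8 * B * E + 8 * B) ≤ N * (ε / 4 * N) := mul_le_mul_of_nonneg_left e2 hN0.le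
        _ = _ := by ring
    have h9 : M ^ 2 ≤ w ^ 2 := pow_le_pow_left₀ hM0 h3 2
    have h10 : w ^ 2 ≤ M ^ 2 + 2 * w := by nlinarith
    have h11 : 0 ≤ ε / 4 * (N : ℝ) ^ 2 := by positivity
    rw [abs_le]
    constructor <;> linarith [h6.1, h6.2]
  have hsum : (∑ p ∈ (Ioc ⌊u⌋₊ ⌊v⌋₊).filter Nat.Prime, (p : ℝ) * Real.log p) = GG ⌊v⌋₊ - GG ⌊u⌋₊ := by
    unfold GG
    rw [eq_sub_iff_add_eq, ← sum_union]
    · apply sum_congr _ fun _ _ => rfl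
      have huv' : ⌊u⌋₊ ≤ ⌊v⌋₊ := Nat.floor_le_floor huv
      ext p
      simp only [mem_union, mem_filter, mem_Ioc]
      constructor
      · rintro (⟨⟨h1, h2⟩, h3⟩ | ⟨⟨h1, h2⟩, h3⟩)
        · exact ⟨⟨by omega, h2⟩, h3⟩
        · exact ⟨⟨h1, by omega⟩, h3⟩
      · rintro ⟨⟨h1, h2⟩, h3⟩
        rcases lt_or_ge ⌊u⌋₊ p with h | h
        · exact Or.inl ⟨⟨h, h2⟩, h3⟩
        · exact Or.inr ⟨⟨h1, h⟩, h3⟩
    · rw [disjoint_left]
      intro p hp hp2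
      simp only [mem_filter, mem_Ioc] at hp hp2
      omega
  rw [hsum]
  have a1 := abs_le.1 (hg v (hu.trans huv) hv)
  have a2 := abs_le.1 (hg u hu (huv.trans hv))
  rw [abs_le]
  constructor <;> linarith [a1.1, a1.2, a2.1, a2.2]

/-- the sum of the primes in an interval -/
lemma SP_asym (a : ℝ) (ha : 0 < a) (B : ℕ) (hB : 1 ≤ B) (ε : ℝ) (hε : 0 < ε) : ∀ᶠ N : ℕ in atTop, ∀ u v : ℝ,
    a * N ≤ u → u ≤ v → v ≤ 4 * (B * N) →
    |SP u v - (v ^ 2 - u ^ 2) / (2 * Real.log N)| ≤ ε * ((N : ℝ) ^ 2 / Real.log N) := by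
  obtain ⟨C0, hC0⟩ : ∃ C0 : ℝ, C0 = |Real.log a| + Real.log (4 * B) := ⟨_, rfl⟩
  have hBr : (1 : ℝ) ≤ B := by exact_mod_cast hB
  have hC0' : 0 ≤ C0 := by
    rw [hC0]
    have := Real.log_nonneg (show (1 : ℝ) ≤ 4 * B by linarith)
    positivity
  filter_upwards [SP_log B hB (ε / 4) (by positivity), ev_L (2 * C0 + 1 + 64 * B ^ 2 * C0 / ε + 1),
    eventually_ge_atTop (⌈1 / a⌉₊ + 2)] with N h1 hL hN u v hu huv hv
  have hN2 : 2 ≤ N := by omega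
  have hN0 : (0 : ℝ) < N := by exact_mod_cast (by omega : 0 < N)
  have haN : 1 ≤ a * N := by
    have h3 : (⌈1 / a⌉₊ : ℝ) ≤ N := by exact_mod_cast (by omega : ⌈1 / a⌉₊ ≤ N)
    have h4 := (Nat.le_ceil (1 / a)).trans h3
    rw [div_le_iff₀ ha] at h4
    linarith
  obtain ⟨L, hLd⟩ : ∃ L, L = Real.log (N : ℝ) := ⟨_, rfl⟩
  rw [← hLd] at hL ⊢
  have hq : 0 ≤ 64 * (B : ℝ) ^ 2 * C0 / ε := by positivity
  have hL0 : 0 < L := by linarith
  have hu0 : 0 ≤ u := by linarith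
  have h2 := abs_le.1 (h1 u v hu0 huv hv)
  obtain ⟨P2, hP2⟩ : ∃ P2, P2 = ∑ p ∈ (Ioc ⌊u⌋₊ ⌊v⌋₊).filter Nat.Prime, (p : ℝ) * Real.log p := ⟨_, rfl⟩
  rw [← hP2] at h2
  have hlog : ∀ p ∈ (Ioc ⌊u⌋₊ ⌊v⌋₊).filter Nat.Prime, L - C0 ≤ Real.log (p : ℝ) ∧ Real.log (p : ℝ) ≤ L + C0 := by
    intro p hp
    simp only [mem_filter, mem_Ioc] at hp
    have h3 : u < p := (Nat.floor_lt hu0).1 hp.1.1
    have h4 : (p : ℝ) ≤ v := (Nat.le_floor_iff (hu0.trans huv)).1 hp.1.2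
    have h5 : (0 : ℝ) < p := by linarith
    have h6 : Real.log (a * N) ≤ Real.log p := Real.log_le_log (by linarith) (by linarith)
    have h7 : Real.log p ≤ Real.log (4 * B * N) := Real.log_le_log h5 (by linarith)
    rw [Real.log_mul ha.ne' hN0.ne', ← hLd] at h6
    rw [Real.log_mul (by positivity) hN0.ne', ← hLd] at h7
    have h8 := Real.log_nonneg (show (1 : ℝ) ≤ 4 * B by linarith)
    have h9 := neg_abs_le (Real.log a)
    have h10 := abs_nonneg (Real.log a)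
    constructor <;> linarith
  have hS0 : 0 ≤ SP u v := sum_nonneg fun _ _ => Nat.cast_nonneg _
  have h3 : (L - C0) * SP u v ≤ P2 := by
    rw [hP2]
    unfold SP
    rw [mul_sum]
    apply sum_le_sum
    intro p hp
    rw [mul_comm]
    exact mul_le_mul_of_nonneg_left (hlog p hp).1 (Nat.cast_nonneg _)
  have h4 : P2 ≤ (L + C0) * SP u v := by
    rw [hP2]
    unfold SP
    rw [mul_sum]
    apply sum_le_sum
    intro p hp
    rw [mul_comm (L + C0)]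
    exact mul_le_mul_of_nonneg_left (hlog p hp).2 (Nat.cast_nonneg _)
  obtain ⟨S, hS⟩ : ∃ S, S = SP u v := ⟨_, rfl⟩
  rw [← hS] at h3 h4 hS0 ⊢
  have hΔ : (v ^ 2 - u ^ 2) / 2 ≤ 8 * B ^ 2 * N ^ 2 := by
    have : v ^ 2 ≤ (4 * (B * N)) ^ 2 := pow_le_pow_left₀ (hu0.trans huv) hv 2
    nlinarith [sq_nonneg u]
  have hΔ0 : 0 ≤ (v ^ 2 - u ^ 2) / 2 := by
    have : u ^ 2 ≤ v ^ 2 := pow_le_pow_left₀ hu0 huv 2
    linarith
  -- the upper bound for `S`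
  have hε4 : ε / 4 ≤ ε := by linarith
  have hSup : S * L ≤ 2 * (8 * B ^ 2 * N ^ 2 + ε / 4 * N ^ 2) := by
    have h5 : L / 2 * S ≤ (L - C0) * S := mul_le_mul_of_nonneg_right (by linarith) hS0
    linarith [h2.2]
  have hCS : C0 * S ≤ 3 * ε / 4 * (N : ℝ) ^ 2 := by
    have h5 : C0 * (S * L) ≤ C0 * (2 * (8 * B ^ 2 * N ^ 2 + ε / 4 * N ^ 2)) := mul_le_mul_of_nonneg_left hSup hC0'
    have h6 : C0 * (2 * (8 * B ^ 2 * N ^ 2 + ε / 4 * N ^ 2)) ≤ 3 * ε / 4 * N ^ 2 * L := by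
      have h7 : 64 * (B : ℝ) ^ 2 * C0 ≤ ε * L := by
        have : 64 * (B : ℝ) ^ 2 * C0 / ε ≤ L := by linarith
        rw [div_le_iff₀ hε] at this
        linarith
      have h8 : 2 * C0 ≤ L := by linarith
      have h9 : C0 * (2 * (8 * B ^ 2 + ε / 4)) ≤ 3 * ε / 4 * L := by nlinarith
      calc C0 * (2 * (8 * B ^ 2 * N ^ 2 + ε / 4 * N ^ 2)) = C0 * (2 * (8 * B ^ 2 + ε / 4)) * N ^ 2 := by ring
        _ ≤ 3 * ε / 4 * L * N ^ 2 := mul_le_mul_of_nonneg_right h9 (by positivity)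
        _ = _ := by ring
    have h7 : C0 * S * L ≤ 3 * ε / 4 * N ^ 2 * L := by linarith
    exact le_of_mul_le_mul_right h7 hL0
  have e1 : S - (v ^ 2 - u ^ 2) / (2 * L) = (L * S - (v ^ 2 - u ^ 2) / 2) / L := by field_simp
  have e2 : ε * ((N : ℝ) ^ 2 / L) = ε * N ^ 2 / L := by ring
  rw [e1, e2, abs_div, abs_of_pos hL0]
  apply div_le_div_of_nonneg_right _ hL0.le
  rw [abs_le]
  constructor <;> linarith [h2.1, h2.2]

end Pool.Agent.NH15.SD
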