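import Pool.Agent.NH15.SD.S1
import Pool.Agent.H373R2.BH.Pair
import Pool.Agent.H646.Moment

set_option autoImplicit false

/-! The measure of the dilations which bring a prime into a given short interval. -/

namespace Pool.Agent.NH15.SD

open Finset Filter MeasureTheory
open Pool.Agent.W301.SS (ev_L ev_log)
open Pool.Agent.H646 (rat)
open Pool.Agent.H373R2.BH (pair_window single_window)

/-- some prime `p` has `x t < p ≤ x (t + s)` -/
def Hit (t s x : ℝ) : Prop := ∃ p : ℕ, p.Prime ∧ x * t < p ∧ (p : ℝ) ≤ x * (t + s)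

lemma hit_mem (t s x : ℝ) (p : ℕ) (ht : 0 < t) (hs : 0 ≤ s) : (x * t < p ∧ (p : ℝ) ≤ x * (t + s)) ↔
    x ∈ Set.Ico ((p : ℝ) / (t + s)) (p / t) := by
  rw [Set.mem_Ico, div_le_iff₀ (by linarith), lt_div_iff₀ ht]
  tauto

lemma hit_union (t s : ℝ) (ht : 0 < t) (hs : 0 ≤ s) : {x | Hit t s x} =
    ⋃ p ∈ {p : ℕ | p.Prime}, Set.Ico ((p : ℝ) / (t + s)) (p / t) := by
  ext x
  simp only [Hit, Set.mem_ofPred_eq, Set.mem_iUnion, exists_prop]
  constructor
  · rintro ⟨p, hp, h⟩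
    exact ⟨p, hp, (hit_mem t s x p ht hs).1 h⟩
  · rintro ⟨p, hp, h⟩
    exact ⟨p, hp, (hit_mem t s x p ht hs).2 h⟩

lemma hit_meas (t s : ℝ) (ht : 0 < t) (hs : 0 ≤ s) : MeasurableSet {x | Hit t s x} := by
  rw [hit_union t s ht hs]
  exact MeasurableSet.biUnion (Set.to_countable _) fun _ _ => measurableSet_Ico

lemma vol_Ico (t s : ℝ) (p : ℕ) (ht : 0 < t) (hs : 0 ≤ s) : volume (Set.Ico ((p : ℝ) / (t + s)) (p / t)) =
    ENNReal.ofReal (s / (t * (t + s)) * p) := by
  rw [Real.volume_Ico]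
  congr 1
  have : 0 < t + s := by linarith
  field_simp
  ring

lemma vol_up (a b t s : ℝ) (ha : 0 < a) (ht : 0 < t) (hs : 0 ≤ s) :
    volume (Set.Icc a b ∩ {x | Hit t s x}) ≤ ENNReal.ofReal (s / (t * (t + s)) * SP (a * t) (b * (t + s))) := by
  have h1 : Set.Icc a b ∩ {x | Hit t s x} ⊆ ⋃ p ∈ (Ioc ⌊a * t⌋₊ ⌊b * (t + s)⌋₊).filter Nat.Prime,
      Set.Ico ((p : ℝ) / (t + s)) (p / t) := by
    rintro x ⟨⟨hx1, hx2⟩, p, hp, h2, h3⟩
    rw [Set.mem_iUnion₂]
    refine ⟨p, ?_, (hit_mem t s x p ht hs).1 ⟨h2, h3⟩⟩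
    rw [mem_filter, mem_Ioc]
    refine ⟨⟨?_, ?_⟩, hp⟩
    · rw [Nat.floor_lt (by positivity)]
      exact lt_of_le_of_lt (mul_le_mul_of_nonneg_right hx1 ht.le) h2
    · apply Nat.le_floor
      exact h3.trans (mul_le_mul_of_nonneg_right hx2 (by linarith))
  refine (measure_mono h1).trans ((measure_biUnion_finset_le _ _).trans ?_)
  have hw : 0 ≤ s / (t * (t + s)) := div_nonneg hs (mul_nonneg ht.le (by linarith))
  unfold SP
  rw [mul_sum, ENNReal.ofReal_sum_of_nonneg fun p _ => mul_nonneg hw (Nat.cast_nonneg _)]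
  exact sum_le_sum fun p _ => (vol_Ico t s p ht hs).le

open Classical in
/-- the primes without a further prime at a distance of at most `D` to the right -/
noncomputable def iso (D : ℕ) (u v : ℝ) : Finset ℕ :=
  ((Ioc ⌊u⌋₊ ⌊v⌋₊).filter Nat.Prime).filter (fun p => ∀ q : ℕ, q.Prime → p < q → p + D < q)

lemma vol_low (a b t s : ℝ) (D : ℕ) (ha : 0 < a) (hab : a ≤ b) (ht : 0 < t) (hs : 0 ≤ s) (hD : b * s ≤ D) :
    ENNReal.ofReal (s / (t * (t + s)) * ∑ p ∈ iso D (a * (t + s)) (b * t), (p : ℝ)) ≤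
      volume (Set.Icc a b ∩ {x | Hit t s x}) := by
  have hts : 0 < t + s := by linarith
  have hmem : ∀ p ∈ iso D (a * (t + s)) (b * t), p.Prime ∧ a * (t + s) < p ∧ (p : ℝ) ≤ b * t ∧
      ∀ q : ℕ, q.Prime → p < q → p + D < q := by
    intro p hp
    unfold iso at hp
    simp only [mem_filter, mem_Ioc] at hp
    refine ⟨hp.1.2, (Nat.floor_lt (by positivity)).1 hp.1.1.1, ?_, hp.2⟩
    exact (Nat.le_floor_iff (mul_nonneg (by linarith) ht.le)).1 hp.1.1.2
  have h1 : (⋃ p ∈ iso D (a * (t + s)) (b * t), Set.Ico ((p : ℝ) / (t + s)) (p / t)) ⊆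
      Set.Icc a b ∩ {x | Hit t s x} := by
    intro x hx
    rw [Set.mem_iUnion₂] at hx
    obtain ⟨p, hp, hx⟩ := hx
    obtain ⟨hp1, hp2, hp3, -⟩ := hmem p hp
    refine ⟨⟨?_, ?_⟩, p, hp1, (hit_mem t s x p ht hs).2 hx⟩
    · have h2 := hx.1
      rw [div_le_iff₀ hts] at h2
      by_contra hcon
      rw [not_le] at hcon
      have := mul_lt_mul_of_pos_right hcon hts
      linarith
    · have h2 := hx.2
      rw [lt_div_iff₀ ht] at h2
      by_contra hcon
      rw [not_le] at hcon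
      have := mul_lt_mul_of_pos_right hcon ht
      linarith
  refine le_trans (le_of_eq ?_) (measure_mono h1)
  rw [measure_biUnion_finset]
  · have hw : 0 ≤ s / (t * (t + s)) := div_nonneg hs (mul_nonneg ht.le (by linarith))
    rw [mul_sum, ENNReal.ofReal_sum_of_nonneg fun p _ => mul_nonneg hw (Nat.cast_nonneg _)]
    exact sum_congr rfl fun p _ => (vol_Ico t s p ht hs).symm
  · have hdis : ∀ p ∈ iso D (a * (t + s)) (b * t), ∀ q ∈ iso D (a * (t + s)) (b * t), p < q →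
        Disjoint (Set.Ico ((p : ℝ) / (t + s)) (p / t)) (Set.Ico ((q : ℝ) / (t + s)) (q / t)) := by
      intro p hp q hq hpq
      obtain ⟨-, -, hp3, hp4⟩ := hmem p hp
      obtain ⟨hq1, -, -, -⟩ := hmem q hq
      rw [Set.disjoint_left]
      rintro x ⟨-, h2⟩ ⟨h3, -⟩
      have h4 : ((p + D : ℕ) : ℝ) < q := by exact_mod_cast hp4 q hq1 hpq
      push_cast at h4
      rw [lt_div_iff₀ ht] at h2
      rw [div_le_iff₀ hts] at h3
      -- `q ≤ x (t + s)`, `x t < p`
      have h5 : (q : ℝ) * t ≤ x * t * (t + s) := by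
        calc (q : ℝ) * t ≤ x * (t + s) * t := mul_le_mul_of_nonneg_right h3 ht.le
          _ = _ := by ring
      have h6 : x * t * (t + s) < p * (t + s) := mul_lt_mul_of_pos_right h2 hts
      have h7 : (p : ℝ) * s ≤ b * t * s := mul_le_mul_of_nonneg_right hp3 hs
      have h8 : b * s * t ≤ D * t := mul_le_mul_of_nonneg_right hD ht.le
      have h9 : ((p : ℝ) + D) * t < q * t := mul_lt_mul_of_pos_right h4 ht
      nlinarith
    intro p hp q hq hpq
    rcases lt_or_gt_of_ne hpq with h | h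
    · exact hdis p hp q hq h
    · exact (hdis q hq p hp h).symm
  · exact fun _ _ => measurableSet_Ico

open Classical in
/-- the primes with a further prime at a distance of at most `D` to the right -/
noncomputable def nis (D V : ℕ) : Finset ℕ := (Icc 1 V).filter (fun p => p.Prime ∧ ∃ q : ℕ, q.Prime ∧ p < q ∧ q ≤ p + D)

lemma mem_nis {D V p : ℕ} : p ∈ nis D V ↔ p ∈ Icc 1 V ∧ p.Prime ∧ ∃ q : ℕ, q.Prime ∧ p < q ∧ q ≤ p + D := by
  unfold nis
  simp only [mem_filter]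

lemma noniso : ∃ C : ℝ, 0 < C ∧ ∀ᶠ V : ℕ in atTop, ∀ D : ℕ, ((nis D V).card : ℝ) ≤ C * D * (V / Real.log V ^ 2) := by
  obtain ⟨C2, hC2, A, N₂, h2⟩ := pair_window
  obtain ⟨C3, hC3, h3⟩ := Pool.Agent.H646.MomentM.rat_moment A
  refine ⟨C2 * C3, by positivity, ?_⟩
  filter_upwards [eventually_ge_atTop N₂] with V hV D
  have hsub : nis D V ⊆
      (Icc 1 D).biUnion fun d => (Icc 1 V).filter (fun u => (u + 0).Prime ∧ (u + d).Prime) := by
    intro p hp
    rw [mem_nis] at hp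
    obtain ⟨hp1, hp2, q, hq, hpq, hqD⟩ := hp
    rw [mem_biUnion]
    refine ⟨q - p, mem_Icc.2 (by omega), mem_filter.2 ⟨hp1, hp2, ?_⟩⟩
    rwa [Nat.add_sub_cancel' hpq.le]
  have h4 : ((nis D V).card : ℝ) ≤
      ∑ d ∈ Icc 1 D, (((Icc 1 V).filter (fun u => (u + 0).Prime ∧ (u + d).Prime)).card : ℝ) := by
    exact_mod_cast (card_le_card hsub).trans card_biUnion_le
  refine h4.trans ?_
  calc ∑ d ∈ Icc 1 D, (((Icc 1 V).filter (fun u => (u + 0).Prime ∧ (u + d).Prime)).card : ℝ) ≤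
        ∑ d ∈ Icc 1 D, C2 * V / (Real.log V) ^ 2 * rat d ^ A := by
        apply sum_le_sum
        intro d hd
        rw [mem_Icc] at hd
        exact h2 V hV d 0 (by omega)
    _ = C2 * V / (Real.log V) ^ 2 * ∑ d ∈ Icc 1 D, rat d ^ A := by rw [mul_sum]
    _ ≤ C2 * V / (Real.log V) ^ 2 * (C3 * D) := mul_le_mul_of_nonneg_left (h3 D) (by positivity)
    _ = _ := by ring

/-- the sum of the isolated primes -/
lemma iso_sum (D V : ℕ) (u v : ℝ) (hv0 : 0 ≤ v) (hv : v ≤ V) (K : ℝ)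
    (hK : ((nis D V).card : ℝ) ≤ K) :
    SP u v - V * K ≤ ∑ p ∈ iso D u v, (p : ℝ) := by
  classical
  have h1 : SP u v = ∑ p ∈ iso D u v, (p : ℝ) + ∑ p ∈ ((Ioc ⌊u⌋₊ ⌊v⌋₊).filter Nat.Prime).filter
      (fun p => ¬ ∀ q : ℕ, q.Prime → p < q → p + D < q), (p : ℝ) := by
    unfold SP iso
    rw [sum_filter_add_sum_filter_not]
  have hvV : ⌊v⌋₊ ≤ V := by
    have := (Nat.floor_le hv0).trans hv
    exact_mod_cast this
  have h2 : ∑ p ∈ ((Ioc ⌊u⌋₊ ⌊v⌋₊).filter Nat.Prime).filter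
      (fun p => ¬ ∀ q : ℕ, q.Prime → p < q → p + D < q), (p : ℝ) ≤ V * K := by
    calc _ ≤ ∑ p ∈ nis D V, (p : ℝ) := by
          apply sum_le_sum_of_subset_of_nonneg
          · intro p hp
            simp only [mem_filter, mem_Ioc] at hp
            obtain ⟨⟨hp1, hp2⟩, hp3⟩ := hp
            push Not at hp3
            exact mem_nis.2 ⟨mem_Icc.2 (by have := hp2.pos; omega), hp2, hp3⟩
          · intro _ _ _
            exact Nat.cast_nonneg _
      _ ≤ ∑ _p ∈ nis D V, (V : ℝ) := by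
          apply sum_le_sum
          intro p hp
          rw [mem_nis, mem_Icc] at hp
          exact_mod_cast hp.1.2
      _ = V * ((nis D V).card : ℝ) := by
          rw [sum_const, nsmul_eq_mul, mul_comm]
      _ ≤ _ := mul_le_mul_of_nonneg_left hK (Nat.cast_nonneg _)
  rw [h1]
  linarith

/-- the measure of the dilations which bring a prime into `(t, t + s]` -/
lemma one (a b ε : ℝ) (ha : 0 < a) (hab : a < b) (hε : 0 < ε) (hε1 : ε ≤ 1) : ∃ c : ℝ, 0 < c ∧ ∀ᶠ N : ℕ in atTop,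
    ∀ t s : ℝ, (N : ℝ) ≤ t → t ≤ 3 * N → 0 ≤ s → s ≤ c * Real.log N →
      volume (Set.Icc a b ∩ {x | Hit t s x}) ≤ ENNReal.ofReal ((1 + ε) * ((b ^ 2 - a ^ 2) / 2) * (s / Real.log N)) ∧
      ENNReal.ofReal ((1 - ε) * ((b ^ 2 - a ^ 2) / 2) * (s / Real.log N)) ≤ volume (Set.Icc a b ∩ {x | Hit t s x}) := by
  obtain ⟨B, hB⟩ := exists_nat_ge (max b 1)
  have hBb : b ≤ B := (le_max_left _ _).trans hB
  have hB1 : (1 : ℝ) ≤ B := (le_max_right _ _).trans hB
  have hB1' : 1 ≤ B := by exact_mod_cast hB1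
  obtain ⟨C, hC, hnon⟩ := noniso
  obtain ⟨lam, hlam⟩ : ∃ lam : ℝ, lam = (b ^ 2 - a ^ 2) / 2 := ⟨_, rfl⟩
  have hlam0 : 0 < lam := by
    rw [hlam]
    have : a ^ 2 < b ^ 2 := pow_lt_pow_left₀ hab ha.le (by norm_num)
    linarith
  have hb0 : 0 < b := ha.trans hab
  rw [← hlam]
  obtain ⟨e, he⟩ : ∃ e : ℝ, e = ε * lam / 8 := ⟨_, rfl⟩
  have he0 : 0 < e := by rw [he]; positivity
  obtain ⟨η, hη⟩ : ∃ η : ℝ, η = ε * lam / (8 * (lam + 2 * a ^ 2 + 2 * b ^ 2)) := ⟨_, rfl⟩
  have hη0 : 0 < η := by rw [hη]; positivity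
  have hη1 : η * (lam + 2 * a ^ 2 + 2 * b ^ 2) = ε * lam / 8 := by
    rw [hη]
    field_simp
  have hη2 : η ≤ 1 := by
    have h1 : η * lam ≤ 1 * lam := by nlinarith [sq_nonneg a, sq_nonneg b, mul_nonneg hη0.le (sq_nonneg a), mul_nonneg hη0.le (sq_nonneg b)]
    exact le_of_mul_le_mul_right h1 hlam0
  refine ⟨e / (32 * B ^ 2 * C * b), by positivity, ?_⟩
  have htV : Tendsto (fun N : ℕ => 4 * (B * N)) atTop atTop :=
    Filter.tendsto_atTop_mono (fun n => by
      calc id n = 1 * n := (one_mul n).symm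
        _ ≤ (4 * B) * n := Nat.mul_le_mul_right n (by omega)
        _ = _ := by ring) tendsto_id
  have hlogN : ∀ᶠ N : ℕ in atTop, Real.log N * (e / (32 * B ^ 2 * C * b) + 1) ≤ min η ((b - a) / a) * N := by
    have h1 : ∀ᶠ x : ℝ in atTop, ‖Real.log x‖ ≤ (min η ((b - a) / a) / (e / (32 * B ^ 2 * C * b) + 1)) * ‖x‖ :=
      Real.isLittleO_log_id_atTop.def (by
        have : 0 < (b - a) / a := div_pos (by linarith) ha
        have : 0 < min η ((b - a) / a) := lt_min hη0 this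
        positivity)
    filter_upwards [tendsto_natCast_atTop_atTop.eventually h1, eventually_ge_atTop 1] with N h2 hN
    have hN1 : (1 : ℝ) ≤ N := by exact_mod_cast hN
    rw [Real.norm_of_nonneg (Real.log_nonneg hN1), Real.norm_of_nonneg (by linarith), div_mul_eq_mul_div,
      le_div_iff₀ (by positivity)] at h2
    exact h2
  filter_upwards [SP_asym a ha B hB1' e he0, htV.eventually hnon, hlogN, ev_L (32 * B ^ 2 * C / e + 1),
    eventually_ge_atTop 2] with N h1 h2 h3 hL hN2 t s ht1 ht2 hs0 hs1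
  obtain ⟨L, hLd⟩ : ∃ L, L = Real.log (N : ℝ) := ⟨_, rfl⟩
  have hN2r : (2 : ℝ) ≤ N := by exact_mod_cast hN2
  have hN0 : (0 : ℝ) < N := by linarith
  rw [← hLd] at h1 h3 hL hs1 ⊢
  have hL0 : 0 < L := by
    have : 0 < 32 * (B : ℝ) ^ 2 * C / e := by positivity
    linarith
  have ht0 : 0 < t := by linarith
  have hts : 0 < t + s := by linarith
  have hsN : s ≤ min η ((b - a) / a) * N := by
    refine le_trans ?_ h3
    have : s ≤ L * (e / (32 * B ^ 2 * C * b)) := by linarith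
    nlinarith
  have hsη : s ≤ η * t := by
    calc s ≤ min η ((b - a) / a) * N := hsN
      _ ≤ η * N := mul_le_mul_of_nonneg_right (min_le_left _ _) hN0.le
      _ ≤ η * t := mul_le_mul_of_nonneg_left ht1 hη0.le
  have hsa : a * (t + s) ≤ b * t := by
    have h4 : s ≤ (b - a) / a * t := by
      calc s ≤ min η ((b - a) / a) * N := hsN
        _ ≤ (b - a) / a * N := mul_le_mul_of_nonneg_right (min_le_right _ _) hN0.le
        _ ≤ _ := mul_le_mul_of_nonneg_left ht1 (div_nonneg (by linarith) ha.le)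
    rw [div_mul_eq_mul_div, le_div_iff₀ ha] at h4
    linarith
  have hst : s ≤ t := hsη.trans (by nlinarith)
  have hsN1 : s ≤ N := by
    calc s ≤ min η ((b - a) / a) * N := hsN
      _ ≤ 1 * N := mul_le_mul_of_nonneg_right ((min_le_left _ _).trans hη2) hN0.le
      _ = N := one_mul _
  have hv : b * (t + s) ≤ 4 * (B * N) := by
    calc b * (t + s) ≤ B * (t + s) := mul_le_mul_of_nonneg_right hBb hts.le
      _ ≤ B * (4 * N) := mul_le_mul_of_nonneg_left (by linarith) (by linarith)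
      _ = _ := by ring
  have hts2 : (t + s) ^ 2 ≤ (1 + 3 * η) * t ^ 2 := by
    have h4 : s ^ 2 ≤ η * t ^ 2 := by
      calc s ^ 2 = s * s := sq s
        _ ≤ η * t * t := mul_le_mul hsη hst hs0 (by positivity)
        _ = _ := by ring
    have h5 : t * s ≤ η * t ^ 2 := by
      calc t * s ≤ t * (η * t) := mul_le_mul_of_nonneg_left hsη ht0.le
        _ = _ := by ring
    nlinarith
  have hNt : (N : ℝ) ^ 2 ≤ t ^ 2 := pow_le_pow_left₀ hN0.le ht1 2
  have hw : 0 ≤ s / (t * (t + s)) := div_nonneg hs0 (mul_nonneg ht0.le hts.le)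
  have ht20 : 0 < t ^ 2 := by positivity
  constructor
  · refine (vol_up a b t s ha ht0 hs0).trans (ENNReal.ofReal_le_ofReal ?_)
    have h4 := (abs_le.1 (h1 (a * t) (b * (t + s)) (mul_le_mul_of_nonneg_left ht1 ha.le)
      (mul_le_mul hab.le (by linarith) ht0.le hb0.le) hv)).2
    have h5 : SP (a * t) (b * (t + s)) ≤ (1 + ε) * lam * (t * (t + s)) / L := by
      have h6 : SP (a * t) (b * (t + s)) ≤ (((b * (t + s)) ^ 2 - (a * t) ^ 2) / 2 + e * N ^ 2) / L := by
        have h7 : ((b * (t + s)) ^ 2 - (a * t) ^ 2) / (2 * L) = ((b * (t + s)) ^ 2 - (a * t) ^ 2) / 2 / L := by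
          rw [div_div]
        rw [add_div, ← h7]
        have h8 : e * ((N : ℝ) ^ 2 / L) = e * N ^ 2 / L := by ring
        linarith
      refine h6.trans (div_le_div_of_nonneg_right ?_ hL0.le)
      have h7 : b ^ 2 * (t + s) ^ 2 ≤ b ^ 2 * ((1 + 3 * η) * t ^ 2) := mul_le_mul_of_nonneg_left hts2 (by positivity)
      have h8 : e * (N : ℝ) ^ 2 ≤ e * t ^ 2 := mul_le_mul_of_nonneg_left hNt he0.le
      have h9 : (1 + ε) * lam * t ^ 2 ≤ (1 + ε) * lam * (t * (t + s)) := by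
        apply mul_le_mul_of_nonneg_left _ (by positivity)
        nlinarith
      have h10 : (b ^ 2 * (1 + 3 * η) - a ^ 2) / 2 + e ≤ (1 + ε) * lam := by
        have : 3 / 2 * (η * b ^ 2) ≤ ε * lam / 8 := by nlinarith [mul_nonneg hη0.le (sq_nonneg a), mul_nonneg hη0.le (sq_nonneg b), mul_nonneg hη0.le hlam0.le]
        rw [he]
        have h11 : (b ^ 2 * (1 + 3 * η) - a ^ 2) / 2 = lam + 3 / 2 * (η * b ^ 2) := by rw [hlam]; ring
        rw [h11]
        nlinarith [mul_pos hε hlam0]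
      have h12 := mul_le_mul_of_nonneg_right h10 ht20.le
      nlinarith
    calc s / (t * (t + s)) * SP (a * t) (b * (t + s)) ≤ s / (t * (t + s)) * ((1 + ε) * lam * (t * (t + s)) / L) :=
          mul_le_mul_of_nonneg_left h5 hw
      _ = _ := by field_simp
  · have hDc := Nat.le_ceil (b * s)
    have hDc2 : (⌈b * s⌉₊ : ℝ) ≤ b * s + 1 := (Nat.ceil_lt_add_one (by positivity)).le
    refine le_trans (ENNReal.ofReal_le_ofReal ?_) (vol_low a b t s ⌈b * s⌉₊ ha hab.le ht0 hs0 hDc)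
    obtain ⟨D, hD⟩ : ∃ D : ℕ, D = ⌈b * s⌉₊ := ⟨_, rfl⟩
    rw [← hD] at hDc hDc2 ⊢
    have hbt : b * t ≤ 4 * (B * N) := by
      have : b * t ≤ b * (t + s) := mul_le_mul_of_nonneg_left (by linarith) hb0.le
      linarith
    have h4 := (abs_le.1 (h1 (a * (t + s)) (b * t) (mul_le_mul_of_nonneg_left (by linarith) ha.le)
      hsa hbt)).1
    have h5 := iso_sum D (4 * (B * N)) (a * (t + s)) (b * t) (by positivity) (by push_cast; exact hbt) _ (h2 D)
    obtain ⟨V, hV⟩ : ∃ V : ℝ, V = ((4 * (B * N) : ℕ) : ℝ) := ⟨_, rfl⟩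
    rw [← hV] at h5
    have hVe : V = 4 * (B * N) := by rw [hV]; push_cast; ring
    have hV0 : 0 < V := by rw [hVe]; positivity
    have hLV : L ≤ Real.log V := by
      rw [hLd, hVe]
      apply Real.log_le_log hN0
      nlinarith
    have h6 : V * (C * D * (V / Real.log V ^ 2)) ≤ e * N ^ 2 / L := by
      have h7 : V / Real.log V ^ 2 ≤ V / L ^ 2 := by
        apply div_le_div_of_nonneg_left hV0.le (by positivity)
        exact pow_le_pow_left₀ hL0.le hLV 2
      have h8 : C * D * (V / Real.log V ^ 2) ≤ C * (b * s + 1) * (V / L ^ 2) := by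
        apply mul_le_mul _ h7 (by positivity) (by positivity)
        exact mul_le_mul_of_nonneg_left hDc2 hC.le
      have h9 : 16 * B ^ 2 * C * (b * s + 1) ≤ e * L := by
        have h10 : 16 * B ^ 2 * C * (b * s) ≤ e * L / 2 := by
          have h11 : s ≤ e * L / (32 * B ^ 2 * C * b) := by
            rw [div_mul_eq_mul_div] at hs1
            exact hs1
          rw [le_div_iff₀ (by positivity)] at h11
          linarith
        have h12 : 16 * B ^ 2 * C ≤ e * L / 2 := by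
          have h13 : 32 * (B : ℝ) ^ 2 * C / e ≤ L := by linarith
          rw [div_le_iff₀ he0] at h13
          linarith
        linarith
      calc V * (C * D * (V / Real.log V ^ 2)) ≤ V * (C * (b * s + 1) * (V / L ^ 2)) :=
            mul_le_mul_of_nonneg_left h8 hV0.le
        _ = 16 * B ^ 2 * C * (b * s + 1) * N ^ 2 / L ^ 2 := by rw [hVe]; ring
        _ ≤ e * L * N ^ 2 / L ^ 2 := by
            apply div_le_div_of_nonneg_right _ (by positivity)
            exact mul_le_mul_of_nonneg_right h9 (by positivity)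
        _ = _ := by field_simp
    have h7 : (1 - ε) * lam * (t * (t + s)) / L ≤ ∑ p ∈ iso D (a * (t + s)) (b * t), (p : ℝ) := by
      have h8 : (((b * t) ^ 2 - (a * (t + s)) ^ 2) / 2 - 2 * e * N ^ 2) / L ≤ ∑ p ∈ iso D (a * (t + s)) (b * t), (p : ℝ) := by
        have h9 : ((b * t) ^ 2 - (a * (t + s)) ^ 2) / (2 * L) = ((b * t) ^ 2 - (a * (t + s)) ^ 2) / 2 / L := by
          rw [div_div]
        rw [sub_div, ← h9]
        have h10 : e * ((N : ℝ) ^ 2 / L) = e * N ^ 2 / L := by ring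
        have h11 : 2 * e * (N : ℝ) ^ 2 / L = e * N ^ 2 / L + e * N ^ 2 / L := by ring
        linarith
      refine le_trans (div_le_div_of_nonneg_right ?_ hL0.le) h8
      have h9 : a ^ 2 * (t + s) ^ 2 ≤ a ^ 2 * ((1 + 3 * η) * t ^ 2) := mul_le_mul_of_nonneg_left hts2 (by positivity)
      have h10 : 2 * e * (N : ℝ) ^ 2 ≤ 2 * e * t ^ 2 := mul_le_mul_of_nonneg_left hNt (by positivity)
      have h11 : (1 - ε) * lam * (t * (t + s)) ≤ (1 - ε) * lam * ((1 + η) * t ^ 2) := by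
        apply mul_le_mul_of_nonneg_left _ (mul_nonneg (by linarith) hlam0.le)
        nlinarith
      have h12 : (1 - ε) * lam * (1 + η) ≤ (b ^ 2 - a ^ 2 * (1 + 3 * η)) / 2 - 2 * e := by
        have h13 : (b ^ 2 - a ^ 2 * (1 + 3 * η)) / 2 = lam - 3 / 2 * (η * a ^ 2) := by rw [hlam]; ring
        have h14 : 3 / 2 * (η * a ^ 2) + η * lam ≤ ε * lam / 8 := by nlinarith [mul_nonneg hη0.le (sq_nonneg a), mul_nonneg hη0.le (sq_nonneg b), mul_nonneg hη0.le hlam0.le]
        rw [h13, he]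
        nlinarith [mul_pos hε hlam0, mul_pos (mul_pos hε hlam0) hη0, mul_pos hη0 hlam0]
      have h15 := mul_le_mul_of_nonneg_right h12 ht20.le
      nlinarith
    calc (1 - ε) * lam * (s / L) = s / (t * (t + s)) * ((1 - ε) * lam * (t * (t + s)) / L) := by field_simp
      _ ≤ _ := mul_le_mul_of_nonneg_left h7 hw

end Pool.Agent.NH15.SD
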