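import Pool.Agent.NH15.SD.S2
import Pool.Agent.NH15.UT.U3

set_option autoImplicit false

/-! The measure of the dilations which bring primes into several given short intervals. -/

namespace Pool.Agent.NH15.SD

open Finset Filter MeasureTheory
open Pool.Agent.W301.SS (ev_L ev_log)
open Pool.Agent.H646 (rat)
open Pool.Agent.H646.TuplesM (rat_ge_one rat_nonneg tuple_bound)
open Pool.Agent.NH15.UT (rat_small)

/-- the possible tuples of differences -/
def TT (r W : ℕ) : Finset (Fin (r + 1) → ℕ) := Fintype.piFinset fun j : Fin (r + 1) => if j = 0 then {0} else range (W + 1)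

lemma TT_card (r W : ℕ) : (TT r W).card = (W + 1) ^ r := by
  unfold TT
  rw [Fintype.card_piFinset, Fin.prod_univ_succ]
  simp [Fin.succ_ne_zero]

/-- one cell -/
lemma cell (r : ℕ) (a b s xc w K : ℝ) (N H : ℕ) (ha : 0 < a) (hs : 0 ≤ s) (hN : 1 ≤ N) (t : Fin (r + 1) → ℝ)
    (hax : a ≤ xc) (hxb : xc ≤ b)
    (htN : (N : ℝ) ≤ t 0) (htN2 : t 0 ≤ 2 * N) (hgap : ∀ i j, i < j → t i + (2 * b * s + 3) / a ≤ t j)
    (hKnn : 0 ≤ K) (hwt : ∀ j, w * (t j - t 0) ≤ 1) (hH : w * t 0 + b * s + w * s + 1 ≤ H) (hHN : (H : ℝ) ≤ N)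
    (hK : ∀ d : Fin (r + 1) → ℕ, StrictMono d → (∀ i j, i < j → d j ≤ d i + ⌊b * (t j - t 0)⌋₊ + ⌊2 * b * s⌋₊ + 5) →
      (((Icc 1 H).filter (fun n => ∀ j, (n + d j).Prime)).card : ℝ) ≤ K) :
    volume {x | xc ≤ x ∧ x ≤ xc + w ∧ x ≤ b ∧ ∀ j, Hit (t j) s x} ≤
      ENNReal.ofReal (((2 * b * s + 2) ^ r * K) * ((2 * b + 1) * s / N)) := by
  classical
  have hN0 : (0 : ℝ) < N := by exact_mod_cast hN
  have ht0 : 0 < t 0 := by linarith
  have hb : 0 < b := by linarith
  obtain ⟨Δ, hΔ⟩ : ∃ Δ : Fin (r + 1) → ℝ, Δ = fun j => t j - t 0 := ⟨_, rfl⟩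
  have hbs : 0 ≤ b * s := by positivity
  have hΔj : ∀ j, j ≠ 0 → (2 * b * s + 3) / a ≤ Δ j := by
    intro j hj
    rw [hΔ]
    have := hgap 0 j (Fin.pos_of_ne_zero hj)
    simp only
    linarith
  have haΔ : ∀ j, j ≠ 0 → 2 * b * s + 3 ≤ xc * Δ j := by
    intro j hj
    have h1 := hΔj j hj
    rw [div_le_iff₀ ha] at h1
    have h0 : 0 ≤ Δ j := by
      have : 0 ≤ (2 * b * s + 3) / a := by positivity
      linarith [hΔj j hj]
    calc 2 * b * s + 3 ≤ Δ j * a := h1
      _ ≤ Δ j * xc := mul_le_mul_of_nonneg_left hax h0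
      _ = _ := mul_comm _ _
  obtain ⟨β, hβ⟩ : ∃ β : Fin (r + 1) → ℕ, β = fun j => if j = 0 then 0 else ⌈xc * Δ j - b * s⌉₊ := ⟨_, rfl⟩
  obtain ⟨W, hW⟩ : ∃ W : ℕ, W = ⌊2 * b * s + 1⌋₊ := ⟨_, rfl⟩
  have hWr : (W : ℝ) ≤ 2 * b * s + 1 := by
    rw [hW]
    exact Nat.floor_le (by positivity)
  obtain ⟨m, hm⟩ : ∃ m : ℕ, m = ⌊xc * t 0⌋₊ := ⟨_, rfl⟩
  have hxt : 0 ≤ xc * t 0 := by
    have : 0 < xc := by linarith
    positivity
  have hm1 : (m : ℝ) ≤ xc * t 0 := by rw [hm]; exact Nat.floor_le hxt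
  have hm2 : xc * t 0 < m + 1 := by rw [hm]; exact Nat.lt_floor_add_one _
  -- the covering
  have hsub : {x | xc ≤ x ∧ x ≤ xc + w ∧ x ≤ b ∧ ∀ j, Hit (t j) s x} ⊆
      ⋃ h ∈ TT r W, ⋃ u ∈ (Icc 1 H).filter (fun n => ∀ j, (n + (m + β j + h j)).Prime),
        Set.Ico (((m + u : ℕ) : ℝ) / (t 0 + s)) (((m + u : ℕ) : ℝ) / t 0) := by
    rintro x ⟨hx1, hx2, hx3, hx4⟩
    choose p hp1 hp2 hp3 using hx4
    have hx0 : 0 < x := by linarith
    have hxs : x * s ≤ b * s := mul_le_mul_of_nonneg_right hx3 hs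
    have hn1 : m < p 0 := by
      have h1 : xc * t 0 ≤ x * t 0 := mul_le_mul_of_nonneg_right hx1 ht0.le
      have h2 : (m : ℝ) < p 0 := by linarith [hp2 0]
      exact_mod_cast h2
    have hn2 : p 0 - m ≤ H := by
      have h1 : ((p 0 - m : ℕ) : ℝ) = p 0 - m := by rw [Nat.cast_sub hn1.le]
      have h2 : x * (t 0 + s) ≤ (xc + w) * (t 0 + s) := mul_le_mul_of_nonneg_right hx2 (by linarith)
      have h3 : xc * s ≤ b * s := mul_le_mul_of_nonneg_right hxb hs
      have h4 : ((p 0 - m : ℕ) : ℝ) ≤ H := by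
        rw [h1]
        have := hp3 0
        nlinarith
      exact_mod_cast h4
    have hlow : ∀ j, j ≠ 0 → xc * Δ j - b * s ≤ (p j : ℝ) - p 0 := by
      intro j hj
      have h0 : 0 ≤ Δ j := by
        have : 0 ≤ (2 * b * s + 3) / a := by positivity
        linarith [hΔj j hj]
      have h1 : xc * Δ j ≤ x * Δ j := mul_le_mul_of_nonneg_right hx1 h0
      have h2 : x * Δ j = x * t j - x * t 0 := by rw [hΔ]; ring
      have h3 := hp2 j
      have h4 := hp3 0
      nlinarith
    have hup : ∀ j, (p j : ℝ) - p 0 ≤ xc * Δ j + 1 + b * s := by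
      intro j
      have h0 : 0 ≤ Δ j := by
        by_cases hj : j = 0
        · rw [hΔ, hj]; simp
        · have : 0 ≤ (2 * b * s + 3) / a := by positivity
          linarith [hΔj j hj]
      have h1 : x * Δ j ≤ (xc + w) * Δ j := mul_le_mul_of_nonneg_right hx2 h0
      have h2 : x * Δ j = x * t j - x * t 0 := by rw [hΔ]; ring
      have h5 : w * Δ j ≤ 1 := by rw [hΔ]; exact hwt j
      have h3 := hp3 j
      have h4 := hp2 0
      nlinarith
    have hpp : ∀ j, j ≠ 0 → p 0 ≤ p j := by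
      intro j hj
      have h1 := hlow j hj
      have h2 := haΔ j hj
      have h3 : (p 0 : ℝ) ≤ p j := by nlinarith
      exact_mod_cast h3
    have hβp : ∀ j, j ≠ 0 → p 0 + β j ≤ p j := by
      intro j hj
      have h1 : β j ≤ p j - p 0 := by
        rw [hβ]
        simp only [if_neg hj]
        apply Nat.ceil_le.2
        rw [Nat.cast_sub (hpp j hj)]
        exact hlow j hj
      have := hpp j hj
      omega
    rw [Set.mem_iUnion₂]
    refine ⟨fun j => if j = 0 then 0 else p j - p 0 - β j, ?_, ?_⟩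
    · unfold TT
      rw [Fintype.mem_piFinset]
      intro j
      by_cases hj : j = 0
      · simp [hj]
      · simp only [if_neg hj, mem_range]
        have h1 : p j - p 0 - β j ≤ W := by
          rw [hW]
          apply Nat.le_floor
          have h2 := hβp j hj
          rw [Nat.cast_sub (by omega), Nat.cast_sub (hpp j hj)]
          have h3 : xc * Δ j - b * s ≤ β j := by
            rw [hβ]
            simp only [if_neg hj]
            exact Nat.le_ceil _
          linarith [hup j]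
        omega
    · rw [Set.mem_iUnion₂]
      refine ⟨p 0 - m, ?_, ?_⟩
      · rw [mem_filter, mem_Icc]
        refine ⟨⟨by omega, hn2⟩, fun j => ?_⟩
        simp only
        by_cases hj : j = 0
        · have h1 : β j = 0 := by rw [hβ]; simp [hj]
          rw [h1, if_pos hj]
          have : p 0 - m + (m + 0 + 0) = p 0 := by omega
          rw [this]
          exact hp1 0
        · rw [if_neg hj]
          have h2 := hβp j hj
          have : p 0 - m + (m + β j + (p j - p 0 - β j)) = p j := by omega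
          rw [this]
          exact hp1 j
      · have h1 : m + (p 0 - m) = p 0 := by omega
        rw [h1]
        exact (hit_mem (t 0) s x (p 0) ht0 hs).1 ⟨hp2 0, hp3 0⟩
  refine (measure_mono hsub).trans ((measure_biUnion_finset_le _ _).trans ?_)
  have hK0 : 0 ≤ (2 * b + 1) * s / N := by positivity
  have hterm : ∀ h ∈ TT r W, volume (⋃ u ∈ (Icc 1 H).filter (fun n => ∀ j, (n + (m + β j + h j)).Prime),
        Set.Ico (((m + u : ℕ) : ℝ) / (t 0 + s)) (((m + u : ℕ) : ℝ) / t 0)) ≤
      ENNReal.ofReal (K * ((2 * b + 1) * s / N)) := by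
    intro h hh
    refine (measure_biUnion_finset_le _ _).trans ?_
    have h1 : ∀ u ∈ (Icc 1 H).filter (fun n => ∀ j, (n + (m + β j + h j)).Prime),
        volume (Set.Ico (((m + u : ℕ) : ℝ) / (t 0 + s)) (((m + u : ℕ) : ℝ) / t 0)) ≤
          ENNReal.ofReal ((2 * b + 1) * s / N) := by
      intro u hu
      rw [mem_filter, mem_Icc] at hu
      rw [vol_Ico _ _ _ ht0 hs]
      apply ENNReal.ofReal_le_ofReal
      have h2 : ((m + u : ℕ) : ℝ) ≤ (2 * b + 1) * N := by
        push_cast
        have h3 : (u : ℝ) ≤ H := by exact_mod_cast hu.1.2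
        have h4 : xc * t 0 ≤ b * (2 * N) := mul_le_mul hxb htN2 ht0.le hb.le
        linarith
      have h3 : (N : ℝ) * N ≤ t 0 * (t 0 + s) := mul_le_mul htN (by linarith) hN0.le ht0.le
      calc s / (t 0 * (t 0 + s)) * ((m + u : ℕ) : ℝ) ≤ s / (N * N) * ((2 * b + 1) * N) := by
            apply mul_le_mul _ h2 (Nat.cast_nonneg _) (by positivity)
            exact div_le_div_of_nonneg_left hs (by positivity) h3
        _ = _ := by field_simp
    refine (sum_le_sum h1).trans ?_
    rw [sum_const, nsmul_eq_mul]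
    have h2 : StrictMono (fun j => m + β j + h j) := by
      unfold TT at hh
      rw [Fintype.mem_piFinset] at hh
      have hh0 : ∀ j, j = 0 → h j = 0 := by
        intro j hj
        have := hh j
        rwa [if_pos hj, mem_singleton] at this
      have hh1 : ∀ j, (h j : ℝ) ≤ 2 * b * s + 1 := by
        intro j
        have h3 := hh j
        by_cases hj : j = 0
        · rw [hh0 j hj]; push_cast; positivity
        · rw [if_neg hj, mem_range] at h3
          have h4 : (h j : ℝ) ≤ W := by exact_mod_cast (by omega : h j ≤ W)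
          linarith
      intro i j hij
      have hj0 : j ≠ 0 := by
        rintro rfl
        exact absurd hij (Fin.not_lt_zero _)
      have h3 : xc * Δ j - b * s ≤ β j := by
        rw [hβ]
        simp only [if_neg hj0]
        exact Nat.le_ceil _
      have h4 : (β i : ℝ) + h i ≤ xc * Δ i + b * s + 2 := by
        by_cases hi : i = 0
        · have h5 : β i = 0 := by rw [hβ]; simp [hi]
          have h6 : Δ i = 0 := by rw [hΔ, hi]; simp
          rw [h5, hh0 i hi, h6]
          push_cast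
          linarith
        · have h5 : (β i : ℝ) ≤ xc * Δ i - b * s + 1 := by
            rw [hβ]
            simp only [if_neg hi]
            apply (Nat.ceil_lt_add_one _).le
            have := haΔ i hi
            linarith
          linarith [hh1 i]
      have h7 : xc * Δ i + (2 * b * s + 3) ≤ xc * Δ j := by
        have h8 := hgap i j hij
        have h9 : (2 * b * s + 3) / a ≤ Δ j - Δ i := by rw [hΔ]; simp only; linarith
        rw [div_le_iff₀ ha] at h9
        have h10 : 0 ≤ Δ j - Δ i := by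
          have : 0 ≤ (2 * b * s + 3) / a := by positivity
          rw [hΔ]; simp only; linarith
        have h11 : (Δ j - Δ i) * a ≤ (Δ j - Δ i) * xc := mul_le_mul_of_nonneg_left hax h10
        linarith
      have h12 : ((m + β i + h i : ℕ) : ℝ) < ((m + β j + h j : ℕ) : ℝ) := by
        push_cast
        have : (0 : ℝ) ≤ h j := Nat.cast_nonneg _
        linarith
      exact_mod_cast h12
    have h3 := hK (fun j => m + β j + h j) h2 (by
      intro i j hij
      unfold TT at hh
      rw [Fintype.mem_piFinset] at hh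
      have hj0 : j ≠ 0 := by
        rintro rfl
        exact absurd hij (Fin.not_lt_zero _)
      have h3 := hh j
      rw [if_neg hj0, mem_range] at h3
      have h4 : β j ≤ ⌊b * (t j - t 0)⌋₊ + 1 := by
        rw [hβ]
        simp only [if_neg hj0]
        have h5 : ⌈xc * Δ j - b * s⌉₊ ≤ ⌈b * (t j - t 0)⌉₊ := by
          apply Nat.ceil_le_ceil
          have h6 : xc * Δ j ≤ b * Δ j := by
            apply mul_le_mul_of_nonneg_right hxb
            have : 0 ≤ (2 * b * s + 3) / a := by positivity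
            linarith [hΔj j hj0]
          have h7 : b * Δ j = b * (t j - t 0) := by rw [hΔ]
          linarith
        exact h5.trans (Nat.ceil_le_floor_add_one _)
      have h5 : W ≤ ⌊2 * b * s⌋₊ + 1 := by
        rw [hW, Nat.floor_add_one (by positivity)]
      omega)
    calc (((Icc 1 H).filter (fun n => ∀ j, (n + (m + β j + h j)).Prime)).card : ENNReal) *
          ENNReal.ofReal ((2 * b + 1) * s / N) =
          ENNReal.ofReal ((((Icc 1 H).filter (fun n => ∀ j, (n + (m + β j + h j)).Prime)).card : ℝ) *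
            ((2 * b + 1) * s / N)) := by
          rw [ENNReal.ofReal_mul (Nat.cast_nonneg _), ENNReal.ofReal_natCast]
      _ ≤ _ := by
          apply ENNReal.ofReal_le_ofReal
          exact mul_le_mul_of_nonneg_right h3 hK0
  refine (sum_le_sum hterm).trans ?_
  rw [sum_const, nsmul_eq_mul, TT_card, ← ENNReal.ofReal_natCast, ← ENNReal.ofReal_mul (Nat.cast_nonneg _)]
  apply ENNReal.ofReal_le_ofReal
  push_cast
  have h1 : ((W : ℝ) + 1) ^ r ≤ (2 * b * s + 2) ^ r := pow_le_pow_left₀ (by positivity) (by linarith) r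
  calc ((W : ℝ) + 1) ^ r * (K * ((2 * b + 1) * s / N)) = ((W : ℝ) + 1) ^ r * K * ((2 * b + 1) * s / N) := by ring
    _ ≤ (2 * b * s + 2) ^ r * K * ((2 * b + 1) * s / N) := by
        apply mul_le_mul_of_nonneg_right _ hK0
        exact mul_le_mul_of_nonneg_right h1 hKnn

lemma ev_pow (c κ : ℝ) (hκ : 0 < κ) : ∀ᶠ N : ℕ in atTop, c ≤ (N : ℝ) ^ κ :=
  ((tendsto_rpow_atTop hκ).comp tendsto_natCast_atTop_atTop).eventually_ge_atTop c

/-- the measure of the dilations which bring a prime into each of `r + 1` intervals -/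
lemma multi (r : ℕ) (a b κ τ : ℝ) (ha : 0 < a) (hab : a < b) (hκ : 0 < κ) (hκ1 : κ < 1) (hτ : 0 < τ) :
    ∃ C : ℝ, 0 < C ∧ ∀ᶠ N : ℕ in atTop, ∀ s : ℝ, 0 ≤ s → s ≤ Real.log N → ∀ t : Fin (r + 1) → ℝ,
      (∀ j, (N : ℝ) ≤ t j ∧ t j ≤ N + (N : ℝ) ^ (1 - κ)) → (∀ i j, i < j → t i + (2 * b * s + 3) / a ≤ t j) →
      volume (Set.Icc a b ∩ {x | ∀ j, Hit (t j) s x}) ≤
        ENNReal.ofReal (C * (s * (1 + s) ^ r) * (Real.log N ^ τ / Real.log N ^ (r + 1))) := by
  obtain ⟨C0, hC0, A, x₀, htb⟩ := tuple_bound (r + 1) (by omega)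
  have hb : 0 < b := ha.trans hab
  obtain ⟨τ', hτ'⟩ : ∃ τ' : ℝ, τ' = τ / ((A * (r + 1) ^ 2 : ℕ) + 1) := ⟨_, rfl⟩
  have hτ'0 : 0 < τ' := by rw [hτ']; positivity
  have hτ'1 : τ' * (A * (r + 1) ^ 2 : ℕ) ≤ τ := by
    rw [hτ', div_mul_eq_mul_div, div_le_iff₀ (by positivity)]
    nlinarith
  refine ⟨(b - a + 1) * (2 * (b + 1)) ^ r * C0 * 3 * (2 * b + 1) / κ ^ (r + 1), by
    have : 0 < b - a + 1 := by linarith
    positivity, ?_⟩
  filter_upwards [rat_small τ' hτ'0, ev_L 1, ev_pow (x₀ + 1) κ hκ, ev_log 1 ((b + 1) + 2) κ hκ,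
    ev_pow (4 + 4 * b) (1 - κ) (by linarith), ev_pow (4 + 4 * b) κ hκ, ev_log 1 (12 * b + 12) 1 one_pos,
    eventually_ge_atTop (⌈4 * b + 10⌉₊ + 10), ev_pow 1 (1 - κ) (by linarith)] with
    N hrat hL1 hx0 hlog1 hpow1 hpow2 hlog2 hN hpow3 s hs hsL t ht hgap
  obtain ⟨L, hLd⟩ : ∃ L, L = Real.log (N : ℝ) := ⟨_, rfl⟩
  rw [← hLd] at hrat hL1 hlog1 hlog2 hsL ⊢
  rw [pow_one] at hlog1 hlog2
  rw [Real.rpow_one] at hlog2
  have hL0 : 0 < L := by linarith
  have hN0 : (0 : ℝ) < N := by exact_mod_cast (by omega : 0 < N)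
  have hNbig : 4 * b + 10 ≤ N := by
    have h3 : (⌈4 * b + 10⌉₊ : ℝ) ≤ N := by exact_mod_cast (by omega : ⌈4 * b + 10⌉₊ ≤ N)
    exact (Nat.le_ceil _).trans h3
  obtain ⟨P, hP⟩ : ∃ P : ℝ, P = (N : ℝ) ^ κ := ⟨_, rfl⟩
  obtain ⟨R, hR⟩ : ∃ R : ℝ, R = (N : ℝ) ^ (1 - κ) := ⟨_, rfl⟩
  have hPR : P * R = N := by
    rw [hP, hR, ← Real.rpow_add hN0]
    norm_num
  rw [← hP] at hx0 hlog1 hpow2
  rw [← hR] at ht hpow1 hpow3
  have hP0 : 0 < P := by rw [hP]; positivity
  have hR0 : 0 < R := by rw [hR]; positivity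
  obtain ⟨H, hH⟩ : ∃ H : ℕ, H = ⌈2 * P⌉₊ := ⟨_, rfl⟩
  have hH1 : 2 * P ≤ H := by rw [hH]; exact Nat.le_ceil _
  have hH2 : (H : ℝ) ≤ 2 * P + 1 := by rw [hH]; exact (Nat.ceil_lt_add_one (by positivity)).le
  have hP4 : 4 ≤ P := by linarith
  have hR4 : 4 ≤ R := by linarith
  have hH3 : (H : ℝ) ≤ 3 * P := by linarith
  have hHN : (H : ℝ) ≤ N := by
    rw [← hPR]
    nlinarith
  have hlogH : κ * L ≤ Real.log H := by
    rw [hLd, ← Real.log_rpow hN0, ← hP]
    exact Real.log_le_log hP0 (by linarith)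
  have hxH : x₀ ≤ H := by
    have : (x₀ : ℝ) ≤ H := by linarith
    exact_mod_cast this
  obtain ⟨K, hK⟩ : ∃ K : ℝ, K = C0 * (3 * P) / (κ * L) ^ (r + 1) * L ^ τ := ⟨_, rfl⟩
  have hK0 : 0 ≤ K := by rw [hK]; positivity
  obtain ⟨w, hw⟩ : ∃ w : ℝ, w = 1 / R := ⟨_, rfl⟩
  have hw0 : 0 < w := by rw [hw]; positivity
  have hwR : w * R = 1 := by rw [hw]; field_simp
  have hw1 : w ≤ 1 := by
    rw [hw, div_le_one hR0]
    linarith
  have hwN : w * N = P := by
    rw [← hPR, hw]
    field_simp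
  have ht0 := ht 0
  have hRN : R ≤ N := by
    rw [← hPR]
    nlinarith
  -- one cell
  have hcell : ∀ xc : ℝ, a ≤ xc → xc ≤ b → volume {x | xc ≤ x ∧ x ≤ xc + w ∧ x ≤ b ∧ ∀ j, Hit (t j) s x} ≤
      ENNReal.ofReal (((2 * b * s + 2) ^ r * K) * ((2 * b + 1) * s / N)) := by
    intro xc h1 h2
    apply cell r a b s xc w K N H ha hs (by omega) t h1 h2 ht0.1 (by linarith) hgap hK0 _ _ hHN
    · -- the tuples
      intro d hd hdd
      have h3 := htb H hxH d hd
      refine h3.trans ?_
      have h4 : C0 * (H : ℝ) / Real.log H ^ (r + 1) ≤ C0 * (3 * P) / (κ * L) ^ (r + 1) := by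
        apply div_le_div₀ (by positivity) (mul_le_mul_of_nonneg_left hH3 hC0.le) (by positivity)
        exact pow_le_pow_left₀ (by positivity) hlogH _
      have h5 : ∏ q ∈ (univ : Finset (Fin (r + 1) × Fin (r + 1))) with q.1 < q.2, rat (d q.2 - d q.1) ^ A ≤ L ^ τ := by
        calc ∏ q ∈ (univ : Finset (Fin (r + 1) × Fin (r + 1))) with q.1 < q.2, rat (d q.2 - d q.1) ^ A ≤
              ∏ _q ∈ (univ : Finset (Fin (r + 1) × Fin (r + 1))) with _q.1 < _q.2, (L ^ τ') ^ A := by
              apply Finset.prod_le_prod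
              · intro q _
                exact pow_nonneg (rat_nonneg _) _
              · intro q hq
                rw [mem_filter] at hq
                apply pow_le_pow_left₀ (rat_nonneg _)
                have h6 := hd hq.2
                have h7 := hdd q.1 q.2 hq.2
                apply hrat _ (by omega)
                have h8 : ((⌊b * (t q.2 - t 0)⌋₊ : ℕ) : ℝ) ≤ b * R := by
                  rcases le_or_gt 0 (t q.2 - t 0) with h9 | h9
                  · refine (Nat.floor_le (by positivity)).trans ?_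
                    exact mul_le_mul_of_nonneg_left (by linarith [(ht q.2).2]) hb.le
                  · have h10 : b * (t q.2 - t 0) ≤ 0 := by nlinarith
                    rw [Nat.floor_of_nonpos h10]
                    push_cast
                    positivity
                have h9 : ((⌊2 * b * s⌋₊ : ℕ) : ℝ) ≤ 2 * b * L := by
                  refine (Nat.floor_le (by positivity)).trans ?_
                  exact mul_le_mul_of_nonneg_left hsL (by positivity)
                have h10 : b * R ≤ N / 4 := by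
                  rw [← hPR]
                  nlinarith
                have h11 : 2 * b * L ≤ N := by nlinarith
                have h12 : ((d q.2 : ℕ) : ℝ) ≤ d q.1 + ⌊b * (t q.2 - t 0)⌋₊ + ⌊2 * b * s⌋₊ + 5 := by exact_mod_cast h7
                have h13 : ((d q.2 : ℕ) : ℝ) ≤ ((2 * N + d q.1 : ℕ) : ℝ) := by
                  push_cast
                  have : 12 ≤ (N : ℝ) / 4 + 12 := by linarith
                  nlinarith
                have h14 : d q.2 ≤ 2 * N + d q.1 := by exact_mod_cast h13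
                omega
          _ = (L ^ τ') ^ (A * (((univ : Finset (Fin (r + 1) × Fin (r + 1))).filter fun q => q.1 < q.2).card)) := by
              rw [prod_const, ← pow_mul]
          _ ≤ (L ^ τ') ^ (A * (r + 1) ^ 2) := by
              apply pow_le_pow_right₀ (Real.one_le_rpow hL1 hτ'0.le)
              apply Nat.mul_le_mul_left
              refine (card_filter_le _ _).trans ?_
              rw [card_univ, Fintype.card_prod, Fintype.card_fin]
              nlinarith
          _ = L ^ (τ' * (A * (r + 1) ^ 2 : ℕ)) := by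
              rw [← Real.rpow_natCast, ← Real.rpow_mul hL0.le]
          _ ≤ _ := Real.rpow_le_rpow_of_exponent_le hL1 hτ'1
      rw [hK]
      exact mul_le_mul h4 h5 (prod_nonneg fun q _ => pow_nonneg (rat_nonneg _) _) (by positivity)
    · intro j
      calc w * (t j - t 0) ≤ w * R := mul_le_mul_of_nonneg_left (by linarith [(ht j).2]) hw0.le
        _ = 1 := hwR
    · have h3 : w * t 0 ≤ P + 1 := by
        calc w * t 0 ≤ w * (N + R) := mul_le_mul_of_nonneg_left ht0.2 hw0.le
          _ = P + 1 := by rw [mul_add, hwN, hwR]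
      have h4 : b * s ≤ b * L := mul_le_mul_of_nonneg_left hsL hb.le
      have h5 : w * s ≤ L := by nlinarith
      nlinarith
  -- the cells
  obtain ⟨n, hn⟩ : ∃ n : ℕ, n = ⌊(b - a) / w⌋₊ + 1 := ⟨_, rfl⟩
  have hn1 : (n : ℝ) ≤ (b - a + 1) * R := by
    have h1 : (⌊(b - a) / w⌋₊ : ℝ) ≤ (b - a) / w := Nat.floor_le (div_nonneg (by linarith) hw0.le)
    have h2 : (b - a) / w = (b - a) * R := by rw [hw]; field_simp
    rw [hn]
    push_cast
    nlinarith
  have hcov : Set.Icc a b ∩ {x | ∀ j, Hit (t j) s x} ⊆ ⋃ c ∈ range n,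
      {x | a + c * w ≤ x ∧ x ≤ a + c * w + w ∧ x ≤ b ∧ ∀ j, Hit (t j) s x} := by
    rintro x ⟨⟨h1, h2⟩, h3⟩
    rw [Set.mem_iUnion₂]
    have h4 : 0 ≤ (x - a) / w := div_nonneg (by linarith) hw0.le
    refine ⟨⌊(x - a) / w⌋₊, ?_, ?_, ?_, h2, h3⟩
    · rw [mem_range, hn, Nat.lt_succ_iff]
      apply Nat.floor_le_floor
      exact div_le_div_of_nonneg_right (by linarith) hw0.le
    · have h5 := Nat.floor_le h4
      rw [le_div_iff₀ hw0] at h5
      linarith
    · have h5 := (Nat.lt_floor_add_one ((x - a) / w)).le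
      rw [div_le_iff₀ hw0] at h5
      linarith
  refine (measure_mono hcov).trans ((measure_biUnion_finset_le _ _).trans ?_)
  have hterm : ∀ c ∈ range n, volume {x | a + c * w ≤ x ∧ x ≤ a + c * w + w ∧ x ≤ b ∧ ∀ j, Hit (t j) s x} ≤
      ENNReal.ofReal (((2 * b * s + 2) ^ r * K) * ((2 * b + 1) * s / N)) := by
    intro c hc
    apply hcell
    · have : 0 ≤ (c : ℝ) * w := by positivity
      linarith
    · rw [mem_range, hn, Nat.lt_succ_iff] at hc
      have h1 : (c : ℝ) ≤ (b - a) / w := by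
        refine le_trans ?_ (Nat.floor_le (div_nonneg (by linarith) hw0.le))
        exact_mod_cast hc
      rw [le_div_iff₀ hw0] at h1
      linarith
  refine (sum_le_sum hterm).trans ?_
  rw [sum_const, card_range, nsmul_eq_mul, ← ENNReal.ofReal_natCast, ← ENNReal.ofReal_mul (Nat.cast_nonneg _)]
  apply ENNReal.ofReal_le_ofReal
  have h1 : (2 * b * s + 2) ^ r ≤ (2 * (b + 1)) ^ r * (1 + s) ^ r := by
    rw [← mul_pow]
    apply pow_le_pow_left₀ (by positivity)
    nlinarith
  have h2 : (2 * b * s + 2) ^ r * K ≤ (2 * (b + 1)) ^ r * (1 + s) ^ r * K := mul_le_mul_of_nonneg_right h1 hK0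
  have hba : 0 ≤ (b - a + 1) * R := by
    have : 0 < b - a + 1 := by linarith
    positivity
  calc (n : ℝ) * ((2 * b * s + 2) ^ r * K * ((2 * b + 1) * s / N)) ≤
        ((b - a + 1) * R) * ((2 * (b + 1)) ^ r * (1 + s) ^ r * K * ((2 * b + 1) * s / N)) := by
        apply mul_le_mul hn1 _ (by positivity) hba
        exact mul_le_mul_of_nonneg_right h2 (by positivity)
    _ = (b - a + 1) * (2 * (b + 1)) ^ r * C0 * 3 * (2 * b + 1) / κ ^ (r + 1) * (s * (1 + s) ^ r) *
        (L ^ τ / L ^ (r + 1)) * ((P * R) / N) := by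
        rw [hK, mul_pow κ L (r + 1)]
        field_simp
    _ = _ := by
        rw [hPR, div_self hN0.ne', mul_one]

end Pool.Agent.NH15.SD
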