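import Mathlib

set_option autoImplicit false

/-! The number of the points which are not hit by any of `k` independent random elements. -/

namespace Pool.Agent.NH15.SD

open Finset MeasureTheory

open Classical in
/-- the number of the points in `S` which are hit by `x` -/
noncomputable def hc (Hs : ℝ → Set ℝ) (S : Finset ℝ) (x : ℝ) : ℕ := (S.filter (fun t => x ∈ Hs t)).card

open Classical in
/-- the points of `S` which are not hit by `x` -/
noncomputable def s1 (Hs : ℝ → Set ℝ) (S : Finset ℝ) (x : ℝ) : Finset ℝ := S.filter (fun t => x ∉ Hs t)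

open Classical in
/-- the points of `S` which are not hit by any of `x 0, ..., x (k - 1)` -/
noncomputable def sv {k : ℕ} (Hs : ℝ → Set ℝ) (S : Finset ℝ) (x : Fin k → ℝ) : Finset ℝ :=
  S.filter (fun t => ∀ i, x i ∉ Hs t)

lemma hc_s1 (Hs : ℝ → Set ℝ) (S : Finset ℝ) (x : ℝ) : hc Hs S x + (s1 Hs S x).card = S.card := by
  classical
  exact card_filter_add_card_filter_not (s := S) (fun t => x ∈ Hs t)

lemma sv_cons {k : ℕ} (Hs : ℝ → Set ℝ) (S : Finset ℝ) (x : Fin (k + 1) → ℝ) :
    sv Hs S x = sv Hs (s1 Hs S (x 0)) (fun i : Fin k => x i.succ) := by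
  classical
  unfold sv s1
  rw [filter_filter]
  apply filter_congr
  intro t _
  rw [Fin.forall_fin_succ]

lemma hc_eq (Hs : ℝ → Set ℝ) (S : Finset ℝ) (x : ℝ) : (hc Hs S x : ℝ) = ∑ t ∈ S, (Hs t).indicator (fun _ => (1 : ℝ)) x := by
  classical
  unfold hc
  rw [card_filter]
  push_cast
  apply sum_congr rfl
  intro t _
  rw [Set.indicator_apply]

lemma sv_eq {k : ℕ} (Hs : ℝ → Set ℝ) (S : Finset ℝ) (x : Fin k → ℝ) : ((sv Hs S x).card : ℝ) =
    ∑ t ∈ S, {y : Fin k → ℝ | ∀ i, y i ∉ Hs t}.indicator (fun _ => (1 : ℝ)) x := by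
  classical
  unfold sv
  rw [card_filter]
  push_cast
  apply sum_congr rfl
  intro t _
  rw [Set.indicator_apply]
  rfl

lemma miss_meas {k : ℕ} (A : Set ℝ) (hA : MeasurableSet A) : MeasurableSet {y : Fin k → ℝ | ∀ i, y i ∉ A} := by
  have : {y : Fin k → ℝ | ∀ i, y i ∉ A} = ⋂ i, (fun y : Fin k → ℝ => y i) ⁻¹' Aᶜ := by
    ext y
    simp
  rw [this]
  exact MeasurableSet.iInter fun i => (measurable_pi_apply i) hA.compl

lemma hc_meas (Hs : ℝ → Set ℝ) (S : Finset ℝ) (hm : ∀ t ∈ S, MeasurableSet (Hs t)) :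
    Measurable (fun x => (hc Hs S x : ℝ)) := by
  simp only [hc_eq]
  exact Finset.measurable_sum _ fun t ht => measurable_const.indicator (hm t ht)

lemma sv_meas {k : ℕ} (Hs : ℝ → Set ℝ) (S : Finset ℝ) (hm : ∀ t ∈ S, MeasurableSet (Hs t)) :
    Measurable (fun x : Fin k → ℝ => ((sv Hs S x).card : ℝ)) := by
  simp only [sv_eq]
  exact Finset.measurable_sum _ fun t ht => measurable_const.indicator (miss_meas _ (hm t ht))

theorem chainM (ν : Measure ℝ) [IsProbabilityMeasure ν] (Hs : ℝ → Set ℝ) (S0 : Finset ℝ)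
    (hm : ∀ t ∈ S0, MeasurableSet (Hs t)) (θ ε β : ℝ) (hθ : 0 < θ) (hε : 0 ≤ ε) (hβ : 0 ≤ β)
    (hbad : ∀ S ⊆ S0, θ ≤ S.card → ν {x | (S.card : ℝ) < 2 * hc Hs S x} ≤ ENNReal.ofReal β)
    (hmean : ∀ S ⊆ S0, θ ≤ S.card →
      ∫⁻ x, ENNReal.ofReal (1 + hc Hs S x / S.card + 2 * (hc Hs S x / S.card) ^ 2) ∂ν ≤ ENNReal.ofReal (1 + ε)) (k : ℕ) :
    ∀ S ⊆ S0, S.Nonempty → Measure.pi (fun _ : Fin k => ν) {x | ((sv Hs S x).card : ℝ) < θ} ≤
      ENNReal.ofReal (θ / S.card * (1 + ε) ^ k + k * β) := by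
  classical
  induction k with
  | zero =>
    intro S hS hSn
    have hS0 : (0 : ℝ) < S.card := by exact_mod_cast card_pos.2 hSn
    by_cases h : (S.card : ℝ) < θ
    · refine prob_le_one.trans ?_
      rw [← ENNReal.ofReal_one]
      apply ENNReal.ofReal_le_ofReal
      have : 1 ≤ θ / S.card := by
        rw [le_div_iff₀ hS0]
        linarith
      simpa using this
    · have : {x : Fin 0 → ℝ | ((sv Hs S x).card : ℝ) < θ} = ∅ := by
        ext x
        simp only [Set.mem_ofPred_eq, Set.mem_empty_iff_false, iff_false]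
        have h2 : sv Hs S x = S := by
          unfold sv
          rw [filter_eq_self]
          intro t _ i
          exact i.elim0
        rwa [h2]
      rw [this, measure_empty]
      exact bot_le
  | succ k ih =>
    intro S hS hSn
    have hS0 : (0 : ℝ) < S.card := by exact_mod_cast card_pos.2 hSn
    by_cases hlt : (S.card : ℝ) < θ
    · refine prob_le_one.trans ?_
      rw [← ENNReal.ofReal_one]
      apply ENNReal.ofReal_le_ofReal
      have h1 : 1 ≤ θ / S.card := by
        rw [le_div_iff₀ hS0]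
        linarith
      have h2 : 1 ≤ (1 + ε) ^ (k + 1) := one_le_pow₀ (by linarith)
      have : 0 ≤ ((k + 1 : ℕ) : ℝ) * β := by positivity
      nlinarith
    rw [not_lt] at hlt
    have hmS : ∀ t ∈ S, MeasurableSet (Hs t) := fun t ht => hm t (hS ht)
    obtain ⟨A, hA⟩ : ∃ A : Set (Fin (k + 1) → ℝ), A = {x | ((sv Hs S x).card : ℝ) < θ} := ⟨_, rfl⟩
    have hAm : MeasurableSet A := by
      rw [hA]
      exact measurableSet_lt (sv_meas Hs S hmS) measurable_const
    have hmp := measurePreserving_piFinSuccAbove (fun _ : Fin (k + 1) => ν) 0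
    have e1 : Measure.pi (fun _ : Fin (k + 1) => ν) A =
        (ν.prod (Measure.pi fun _ : Fin k => ν)) ((MeasurableEquiv.piFinSuccAbove (fun _ : Fin (k + 1) => ℝ) 0).symm ⁻¹' A) := by
      rw [← hmp.symm.measure_preimage hAm.nullMeasurableSet]
    rw [← hA, e1, Measure.prod_apply ((MeasurableEquiv.measurable _) hAm)]
    obtain ⟨g, hg⟩ : ∃ g : ℝ → ℝ, g = fun x => (1 : ℝ) + (hc Hs S x : ℝ) / (S.card : ℝ) +
      2 * ((hc Hs S x : ℝ) / (S.card : ℝ)) ^ 2 := ⟨_, rfl⟩
    have hg0 : ∀ x, 0 ≤ g x := by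
      intro x
      rw [hg]
      positivity
    have hgm : Measurable g := by
      rw [hg]
      have h1 := (hc_meas Hs S hmS).div_const (S.card : ℝ)
      exact (h1.const_add 1).add ((h1.pow_const 2).const_mul 2)
    obtain ⟨Bad, hBad⟩ : ∃ Bad : Set ℝ, Bad = {x | (S.card : ℝ) < 2 * hc Hs S x} := ⟨_, rfl⟩
    have hBm : MeasurableSet Bad := by
      rw [hBad]
      exact measurableSet_lt measurable_const ((hc_meas Hs S hmS).const_mul 2)
    have hc0 : 0 ≤ θ / S.card * (1 + ε) ^ k := by positivity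
    have hpt : ∀ x : ℝ, Measure.pi (fun _ : Fin k => ν)
        (Prod.mk x ⁻¹' ((MeasurableEquiv.piFinSuccAbove (fun _ : Fin (k + 1) => ℝ) 0).symm ⁻¹' A)) ≤
        Bad.indicator (fun _ => (1 : ENNReal)) x + (ENNReal.ofReal (θ / S.card * (1 + ε) ^ k) * ENNReal.ofReal (g x) +
          ENNReal.ofReal (k * β)) := by
      intro x
      by_cases hx : x ∈ Bad
      · rw [Set.indicator_of_mem hx]
        exact prob_le_one.trans le_self_add
      · rw [Set.indicator_of_notMem hx, zero_add]
        rw [hBad, Set.mem_ofPred_eq, not_lt] at hx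
        obtain ⟨κ, hκ⟩ : ∃ κ : ℝ, κ = hc Hs S x / S.card := ⟨_, rfl⟩
        have hκ0 : 0 ≤ κ := by rw [hκ]; positivity
        have hκ1 : κ ≤ 1 / 2 := by
          rw [hκ, div_le_iff₀ hS0]
          linarith
        have hS' : ((s1 Hs S x).card : ℝ) = (1 - κ) * S.card := by
          have h3 : (hc Hs S x : ℝ) + (s1 Hs S x).card = S.card := by exact_mod_cast hc_s1 Hs S x
          have h4 : (hc Hs S x : ℝ) = κ * S.card := by
            rw [hκ]
            field_simp
          linarith
        have hpos : 0 < (1 - κ) * S.card := mul_pos (by linarith) hS0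
        have hne : (s1 Hs S x).Nonempty := by
          rw [← card_pos]
          have : (0 : ℝ) < ((s1 Hs S x).card : ℝ) := by rw [hS']; exact hpos
          exact_mod_cast this
        have hsub : s1 Hs S x ⊆ S0 := by
          unfold s1
          exact (filter_subset _ _).trans hS
        have h5 := ih (s1 Hs S x) hsub hne
        have h6 : (Prod.mk x ⁻¹' ((MeasurableEquiv.piFinSuccAbove (fun _ : Fin (k + 1) => ℝ) 0).symm ⁻¹' A)) =
            {y | ((sv Hs (s1 Hs S x) y).card : ℝ) < θ} := by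
          ext y
          rw [hA]
          simp only [Set.mem_preimage, Set.mem_ofPred_eq]
          rw [sv_cons]
          rfl
        rw [h6]
        refine h5.trans ?_
        rw [← ENNReal.ofReal_mul hc0, ← ENNReal.ofReal_add (mul_nonneg hc0 (hg0 x)) (by positivity)]
        apply ENNReal.ofReal_le_ofReal
        apply add_le_add _ le_rfl
        rw [hS', hg]
        simp only
        rw [← hκ]
        have h2 : θ / ((1 - κ) * S.card) ≤ θ / S.card * (1 + κ + 2 * κ ^ 2) := by
          rw [div_le_iff₀ hpos]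
          have h3 : 1 ≤ (1 + κ + 2 * κ ^ 2) * (1 - κ) := by nlinarith [mul_nonneg (sq_nonneg κ) (by linarith : (0:ℝ) ≤ 1 - 2 * κ)]
          calc θ = θ * 1 := (mul_one θ).symm
            _ ≤ θ * ((1 + κ + 2 * κ ^ 2) * (1 - κ)) := mul_le_mul_of_nonneg_left h3 hθ.le
            _ = _ := by field_simp
        calc θ / ((1 - κ) * S.card) * (1 + ε) ^ k ≤ θ / S.card * (1 + κ + 2 * κ ^ 2) * (1 + ε) ^ k :=
              mul_le_mul_of_nonneg_right h2 (by positivity)
          _ = _ := by ring
    refine (lintegral_mono hpt).trans ?_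
    have hmm : Measurable (fun x => ENNReal.ofReal (θ / S.card * (1 + ε) ^ k) * ENNReal.ofReal (g x)) :=
      measurable_const.mul hgm.ennreal_ofReal
    rw [lintegral_add_left (measurable_const.indicator hBm), lintegral_add_left hmm,
      lintegral_const_mul _ hgm.ennreal_ofReal, lintegral_indicator_const hBm, one_mul, lintegral_const, measure_univ,
      mul_one]
    have h1 := hbad S hS hlt
    rw [← hBad] at h1
    have h2 := hmean S hS hlt
    have h3 : ENNReal.ofReal (θ / S.card * (1 + ε) ^ k) * ∫⁻ x, ENNReal.ofReal (g x) ∂ν ≤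
        ENNReal.ofReal (θ / S.card * (1 + ε) ^ k) * ENNReal.ofReal (1 + ε) := by
      rw [hg]
      exact mul_le_mul' le_rfl h2
    refine (add_le_add h1 (add_le_add h3 le_rfl)).trans ?_
    rw [← ENNReal.ofReal_mul hc0, ← ENNReal.ofReal_add (by positivity) (by positivity), ← ENNReal.ofReal_add hβ (by positivity)]
    apply ENNReal.ofReal_le_ofReal
    push_cast
    apply le_of_eq
    ring

/-- the probability that half of the points are hit -/
lemma bad_le (ν : Measure ℝ) [IsProbabilityMeasure ν] (Hs : ℝ → Set ℝ) (S : Finset ℝ)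
    (hm : ∀ t ∈ S, MeasurableSet (Hs t)) (r : ℕ) (Q : ℝ) (hQ : 0 ≤ Q)
    (hQ2 : ∀ T ⊆ S, T.card = r → ν {x | ∀ t ∈ T, x ∈ Hs t} ≤ ENNReal.ofReal Q) (hr : 4 * r ≤ S.card) (hr1 : 1 ≤ r) :
    ν {x | (S.card : ℝ) < 2 * hc Hs S x} ≤ ENNReal.ofReal (4 ^ r * Q) := by
  classical
  obtain ⟨Bad, hBad⟩ : ∃ Bad : Set ℝ, Bad = {x | (S.card : ℝ) < 2 * hc Hs S x} := ⟨_, rfl⟩
  have hBm : MeasurableSet Bad := by
    rw [hBad]
    exact measurableSet_lt measurable_const ((hc_meas Hs S hm).const_mul 2)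
  rw [← hBad]
  have hS0 : (0 : ℝ) < S.card := by exact_mod_cast (by omega : 0 < S.card)
  have hTm : ∀ T ∈ powersetCard r S, MeasurableSet {x | ∀ t ∈ T, x ∈ Hs t} := by
    intro T hT
    rw [mem_powersetCard] at hT
    have : {x | ∀ t ∈ T, x ∈ Hs t} = ⋂ t ∈ T, Hs t := by
      ext x
      simp
    rw [this]
    exact Finset.measurableSet_biInter _ fun t ht => hm t (hT.1 ht)
  obtain ⟨w, hw⟩ : ∃ w : ℝ, w = ((S.card : ℝ) / 4) ^ r / r.factorial := ⟨_, rfl⟩
  have hf : (0 : ℝ) < r.factorial := by exact_mod_cast r.factorial_pos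
  have hw0 : 0 < w := by rw [hw]; positivity
  have hpt : ∀ x, Bad.indicator (fun _ => ENNReal.ofReal w) x ≤
      ∑ T ∈ powersetCard r S, {x | ∀ t ∈ T, x ∈ Hs t}.indicator (fun _ => (1 : ENNReal)) x := by
    intro x
    by_cases hx : x ∈ Bad
    · rw [Set.indicator_of_mem hx]
      have e1 : ∑ T ∈ powersetCard r S, {x | ∀ t ∈ T, x ∈ Hs t}.indicator (fun _ => (1 : ENNReal)) x =
          (((powersetCard r (S.filter (fun t => x ∈ Hs t))).card : ℕ) : ENNReal) := by
        have : powersetCard r (S.filter (fun t => x ∈ Hs t)) = (powersetCard r S).filter (fun T => ∀ t ∈ T, x ∈ Hs t) := by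
          ext T
          rw [mem_filter, mem_powersetCard, mem_powersetCard]
          constructor
          · rintro ⟨g1, g2⟩
            exact ⟨⟨fun n hn => (mem_filter.1 (g1 hn)).1, g2⟩, fun n hn => (mem_filter.1 (g1 hn)).2⟩
          · rintro ⟨⟨g1, g2⟩, g3⟩
            exact ⟨fun n hn => mem_filter.2 ⟨g1 hn, g3 n hn⟩, g2⟩
        rw [this, card_filter]
        push_cast
        apply sum_congr rfl
        intro T _
        rw [Set.indicator_apply]
        rfl
      rw [e1, ← ENNReal.ofReal_natCast]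
      apply ENNReal.ofReal_le_ofReal
      rw [card_powersetCard, hw]
      refine le_trans ?_ (Nat.pow_le_choose r _)
      apply div_le_div_of_nonneg_right _ (by positivity)
      apply pow_le_pow_left₀ (by positivity)
      rw [hBad, Set.mem_ofPred_eq] at hx
      have h3 : (S.card : ℝ) < 2 * ((S.filter (fun t => x ∈ Hs t)).card : ℝ) := hx
      have h3' : S.card < 2 * (S.filter (fun t => x ∈ Hs t)).card := by exact_mod_cast h3
      have h4 : r ≤ (S.filter (fun t => x ∈ Hs t)).card + 1 := by omega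
      rw [Nat.cast_sub h4]
      push_cast
      have h5 : (4 : ℝ) * r ≤ S.card := by exact_mod_cast hr
      linarith
    · rw [Set.indicator_of_notMem hx]
      exact bot_le
  have h1 := lintegral_mono (μ := ν) hpt
  rw [lintegral_indicator_const hBm, lintegral_finsetSum' _ fun T hT => (measurable_const.indicator (hTm T hT)).aemeasurable] at h1
  have h2 : ∑ T ∈ powersetCard r S, ∫⁻ x, {x | ∀ t ∈ T, x ∈ Hs t}.indicator (fun _ => (1 : ENNReal)) x ∂ν ≤
      ENNReal.ofReal ((S.card : ℝ) ^ r / r.factorial * Q) := by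
    calc _ ≤ ∑ _T ∈ powersetCard r S, ENNReal.ofReal Q := by
          apply sum_le_sum
          intro T hT
          rw [lintegral_indicator_const (hTm T hT), one_mul]
          rw [mem_powersetCard] at hT
          exact hQ2 T hT.1 hT.2
      _ = ENNReal.ofReal (((powersetCard r S).card : ℝ) * Q) := by
          rw [sum_const, nsmul_eq_mul, ENNReal.ofReal_mul (Nat.cast_nonneg _), ENNReal.ofReal_natCast]
      _ ≤ _ := by
          apply ENNReal.ofReal_le_ofReal
          apply mul_le_mul_of_nonneg_right _ hQ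
          rw [card_powersetCard]
          exact Nat.choose_le_pow_div r _
  have h3 := h1.trans h2
  have h4 : (S.card : ℝ) ^ r / r.factorial * Q = w * (4 ^ r * Q) := by
    rw [hw, div_pow]
    field_simp
  rw [h4, ENNReal.ofReal_mul hw0.le] at h3
  have h5 : ENNReal.ofReal w ≠ 0 := by
    rw [Ne, ENNReal.ofReal_eq_zero, not_le]
    exact hw0
  exact (ENNReal.mul_le_mul_iff_right h5 ENNReal.ofReal_ne_top).1 h3

/-- the mean of the potential -/
lemma mean_le (ν : Measure ℝ) [IsProbabilityMeasure ν] (Hs : ℝ → Set ℝ) (S : Finset ℝ)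
    (hm : ∀ t ∈ S, MeasurableSet (Hs t)) (hSn : S.Nonempty) (q Q : ℝ) (hq : 0 ≤ q) (hQ : 0 ≤ Q)
    (h1 : ∀ t ∈ S, ν (Hs t) ≤ ENNReal.ofReal q)
    (h2 : ∀ t ∈ S, ∀ t' ∈ S, t < t' → ν (Hs t ∩ Hs t') ≤ ENNReal.ofReal Q) :
    ∫⁻ x, ENNReal.ofReal (1 + hc Hs S x / S.card + 2 * (hc Hs S x / S.card) ^ 2) ∂ν ≤
      ENNReal.ofReal (1 + (q + 2 * (q / S.card + Q))) := by
  classical
  have hS0 : (0 : ℝ) < S.card := by exact_mod_cast card_pos.2 hSn
  have h1r : ∀ t ∈ S, ν.real (Hs t) ≤ q := fun t ht => ENNReal.toReal_le_of_le_ofReal hq (h1 t ht)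
  have h2r : ∀ t ∈ S, ∀ t' ∈ S, t ≠ t' → ν.real (Hs t ∩ Hs t') ≤ Q := by
    intro t ht t' ht' hne
    apply ENNReal.toReal_le_of_le_ofReal hQ
    rcases lt_or_gt_of_ne hne with h | h
    · exact h2 t ht t' ht' h
    · rw [Set.inter_comm]
      exact h2 t' ht' t ht h
  have hint : ∀ t ∈ S, Integrable ((Hs t).indicator (fun _ => (1 : ℝ))) ν := fun t ht =>
    (integrable_const (1 : ℝ)).indicator (hm t ht)
  have hint2 : ∀ t ∈ S, ∀ t' ∈ S, Integrable ((Hs t ∩ Hs t').indicator (fun _ => (1 : ℝ))) ν := fun t ht t' ht' =>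
    (integrable_const (1 : ℝ)).indicator ((hm t ht).inter (hm t' ht'))
  have hsq : ∀ x, ((hc Hs S x : ℝ)) ^ 2 = ∑ t ∈ S, ∑ t' ∈ S, (Hs t ∩ Hs t').indicator (fun _ => (1 : ℝ)) x := by
    intro x
    rw [hc_eq, sq, sum_mul_sum]
    apply sum_congr rfl
    intro t _
    apply sum_congr rfl
    intro t' _
    by_cases g1 : x ∈ Hs t <;> by_cases g2 : x ∈ Hs t' <;> simp [g1, g2]
  have e1 : ∀ x, (1 : ℝ) + hc Hs S x / S.card + 2 * (hc Hs S x / S.card) ^ 2 = 1 +
      (∑ t ∈ S, (Hs t).indicator (fun _ => (1 : ℝ)) x) / S.card +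
      (2 / (S.card : ℝ) ^ 2) * ∑ t ∈ S, ∑ t' ∈ S, (Hs t ∩ Hs t').indicator (fun _ => (1 : ℝ)) x := by
    intro x
    rw [← hsq, ← hc_eq]
    ring
  have hI1 : Integrable (fun x => ∑ t ∈ S, (Hs t).indicator (fun _ => (1 : ℝ)) x) ν := integrable_finsetSum _ hint
  have hI2 : Integrable (fun x => ∑ t ∈ S, ∑ t' ∈ S, (Hs t ∩ Hs t').indicator (fun _ => (1 : ℝ)) x) ν :=
    integrable_finsetSum _ fun t ht => integrable_finsetSum _ fun t' ht' => hint2 t ht t' ht'
  have hI0 : Integrable (fun x => (1 : ℝ) + (∑ t ∈ S, (Hs t).indicator (fun _ => (1 : ℝ)) x) / S.card) ν :=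
    (integrable_const _).add (hI1.div_const _)
  have hI : Integrable (fun x => (1 : ℝ) + (∑ t ∈ S, (Hs t).indicator (fun _ => (1 : ℝ)) x) / S.card +
      (2 / (S.card : ℝ) ^ 2) * ∑ t ∈ S, ∑ t' ∈ S, (Hs t ∩ Hs t').indicator (fun _ => (1 : ℝ)) x) ν :=
    hI0.add (hI2.const_mul _)
  simp only [e1]
  rw [← ofReal_integral_eq_lintegral_ofReal hI]
  · apply ENNReal.ofReal_le_ofReal
    rw [integral_add hI0 (hI2.const_mul _), integral_add (integrable_const _) (hI1.div_const _), integral_const,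
      integral_div, integral_const_mul, integral_finsetSum _ hint,
      integral_finsetSum _ fun t ht => integrable_finsetSum _ fun t' ht' => hint2 t ht t' ht']
    have g1 : ∑ t ∈ S, ∫ x, (Hs t).indicator (fun _ => (1 : ℝ)) x ∂ν ≤ S.card * q := by
      calc _ ≤ ∑ _t ∈ S, q := by
            apply sum_le_sum
            intro t ht
            rw [integral_indicator_const _ (hm t ht), smul_eq_mul, mul_one]
            exact h1r t ht
        _ = _ := by rw [sum_const, nsmul_eq_mul]
    have g2 : ∑ t ∈ S, ∫ x, ∑ t' ∈ S, (Hs t ∩ Hs t').indicator (fun _ => (1 : ℝ)) x ∂ν ≤ S.card * (q + S.card * Q) := by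
      calc _ ≤ ∑ _t ∈ S, (q + S.card * Q) := by
            apply sum_le_sum
            intro t ht
            rw [integral_finsetSum _ fun t' ht' => hint2 t ht t' ht', ← add_sum_erase S _ ht]
            apply add_le_add
            · rw [Set.inter_self, integral_indicator_const _ (hm t ht), smul_eq_mul, mul_one]
              exact h1r t ht
            · calc _ ≤ ∑ _t' ∈ S.erase t, Q := by
                    apply sum_le_sum
                    intro t' ht'
                    rw [mem_erase] at ht'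
                    rw [integral_indicator_const _ ((hm t ht).inter (hm t' ht'.2)), smul_eq_mul, mul_one]
                    exact h2r t ht t' ht'.2 ht'.1.symm
                _ ≤ _ := by
                    rw [sum_const, nsmul_eq_mul]
                    apply mul_le_mul_of_nonneg_right _ hQ
                    exact_mod_cast card_le_card (erase_subset _ _)
        _ = _ := by rw [sum_const, nsmul_eq_mul]
    have g3 : (∑ t ∈ S, ∫ x, (Hs t).indicator (fun _ => (1 : ℝ)) x ∂ν) / S.card ≤ q := by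
      rw [div_le_iff₀ hS0]
      linarith
    have g4 : 2 / (S.card : ℝ) ^ 2 * ∑ t ∈ S, ∫ x, ∑ t' ∈ S, (Hs t ∩ Hs t').indicator (fun _ => (1 : ℝ)) x ∂ν ≤
        2 * (q / S.card + Q) := by
      calc _ ≤ 2 / (S.card : ℝ) ^ 2 * (S.card * (q + S.card * Q)) := mul_le_mul_of_nonneg_left g2 (by positivity)
        _ = _ := by field_simp
    simp only [probReal_univ, smul_eq_mul, mul_one]
    linarith
  · filter_upwards with x
    apply add_nonneg
    · apply add_nonneg zero_le_one
      apply div_nonneg _ hS0.le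
      exact sum_nonneg fun t _ => Set.indicator_nonneg (fun _ _ => zero_le_one) _
    · apply mul_nonneg (by positivity)
      exact sum_nonneg fun t _ => sum_nonneg fun t' _ => Set.indicator_nonneg (fun _ _ => zero_le_one) _

/-- the probability that a point is not hit -/
lemma miss_eq (ν : Measure ℝ) [IsProbabilityMeasure ν] (A : Set ℝ) (hA : MeasurableSet A) (k : ℕ) (q : ℝ)
    (h : ENNReal.ofReal q ≤ ν A) : Measure.pi (fun _ : Fin k => ν) {x | ∀ i, x i ∉ A} ≤ ENNReal.ofReal (Real.exp (-(k * q))) := by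
  have h1 : {x : Fin k → ℝ | ∀ i, x i ∉ A} = Set.pi Set.univ fun _ => Aᶜ := by
    ext x
    simp
  rw [h1, Measure.pi_pi]
  have h2 : ν Aᶜ ≤ ENNReal.ofReal (Real.exp (-q)) := by
    have h3 : ν.real Aᶜ = 1 - ν.real A := probReal_compl_eq_one_sub hA
    have h4 : q ≤ ν.real A := (ENNReal.ofReal_le_iff_le_toReal (measure_ne_top ν A)).1 h
    rw [← ENNReal.ofReal_toReal (measure_ne_top ν Aᶜ)]
    apply ENNReal.ofReal_le_ofReal
    have h5 : (ν Aᶜ).toReal = ν.real Aᶜ := rfl
    rw [h5, h3]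
    have := Real.add_one_le_exp (-q)
    linarith
  rw [prod_const, card_univ, Fintype.card_fin]
  calc ν Aᶜ ^ k ≤ ENNReal.ofReal (Real.exp (-q)) ^ k := pow_le_pow_left' h2 k
    _ = _ := by
        rw [← ENNReal.ofReal_pow (Real.exp_pos _).le, ← Real.exp_nat_mul]
        congr 2
        ring

end Pool.Agent.NH15.SD
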