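import Pool.Agent.NH15.SD.S3
import Pool.Agent.NH15.SD.S4

set_option autoImplicit false

/-! The probabilities for the uniform distribution, and the points which are not hit. -/

namespace Pool.Agent.NH15.SD

open Finset Filter MeasureTheory
open Pool.Agent.W301.SS (ev_L ev_log)

/-- the uniform distribution on `[a, b]` -/
noncomputable def nu (a b : ℝ) : Measure ℝ := ProbabilityTheory.cond volume (Set.Icc a b)

lemma nu_prob {a b : ℝ} (hab : a < b) : IsProbabilityMeasure (nu a b) := by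
  unfold nu
  apply ProbabilityTheory.cond_isProbabilityMeasure_of_finite
  · rw [Real.volume_Icc]
    simp [hab]
  · rw [Real.volume_Icc]
    exact ENNReal.ofReal_ne_top

lemma nu_apply (a b : ℝ) (A : Set ℝ) : nu a b A = (ENNReal.ofReal (b - a))⁻¹ * volume (Set.Icc a b ∩ A) := by
  unfold nu
  rw [ProbabilityTheory.cond_apply measurableSet_Icc, Real.volume_Icc]

lemma nu_le {a b V : ℝ} (hab : a < b) (A : Set ℝ) (h : volume (Set.Icc a b ∩ A) ≤ ENNReal.ofReal V) :
    nu a b A ≤ ENNReal.ofReal (V / (b - a)) := by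
  rw [nu_apply, div_eq_inv_mul, ENNReal.ofReal_mul (inv_nonneg.2 (by linarith)), ENNReal.ofReal_inv_of_pos (by linarith)]
  exact mul_le_mul' le_rfl h

lemma le_nu {a b V : ℝ} (hab : a < b) (A : Set ℝ) (h : ENNReal.ofReal V ≤ volume (Set.Icc a b ∩ A)) :
    ENNReal.ofReal (V / (b - a)) ≤ nu a b A := by
  rw [nu_apply, div_eq_inv_mul, ENNReal.ofReal_mul (inv_nonneg.2 (by linarith)), ENNReal.ofReal_inv_of_pos (by linarith)]
  exact mul_le_mul' le_rfl h

/-- the probability that an interval is hit -/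
lemma one' (a b ε : ℝ) (ha : 0 < a) (hab : a < b) (hε : 0 < ε) (hε1 : ε ≤ 1) : ∃ c : ℝ, 0 < c ∧ ∀ᶠ N : ℕ in atTop,
    ∀ t s : ℝ, (N : ℝ) ≤ t → t ≤ 3 * N → 0 ≤ s → s ≤ c * Real.log N →
      nu a b {x | Hit t s x} ≤ ENNReal.ofReal ((1 + ε) * ((a + b) / 2) * (s / Real.log N)) ∧
      ENNReal.ofReal ((1 - ε) * ((a + b) / 2) * (s / Real.log N)) ≤ nu a b {x | Hit t s x} := by
  obtain ⟨c, hc, h⟩ := one a b ε ha hab hε hε1
  refine ⟨c, hc, ?_⟩
  filter_upwards [h] with N h1 t s ht1 ht2 hs0 hs1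
  obtain ⟨h2, h3⟩ := h1 t s ht1 ht2 hs0 hs1
  have hba : (b - a) ≠ 0 := by
    have : 0 < b - a := by linarith
    exact this.ne'
  have e : ∀ w z : ℝ, w * ((b ^ 2 - a ^ 2) / 2) * z / (b - a) = w * ((a + b) / 2) * z := by
    intro w z
    have : b ^ 2 - a ^ 2 = (a + b) * (b - a) := by ring
    rw [this]
    field_simp
  have h4 := nu_le hab _ h2
  have h5 := le_nu hab _ h3
  rw [e] at h4 h5
  exact ⟨h4, h5⟩

lemma multi' (r : ℕ) (a b κ τ : ℝ) (ha : 0 < a) (hab : a < b) (hκ : 0 < κ) (hκ1 : κ < 1) (hτ : 0 < τ) :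
    ∃ C : ℝ, 0 < C ∧ ∀ᶠ N : ℕ in atTop, ∀ s : ℝ, 0 ≤ s → s ≤ Real.log N → ∀ T : Finset ℝ, T.card = r + 1 →
      (∀ t ∈ T, (N : ℝ) ≤ t ∧ t ≤ N + (N : ℝ) ^ (1 - κ)) → (∀ t ∈ T, ∀ t' ∈ T, t < t' → t + (2 * b * s + 3) / a ≤ t') →
      nu a b {x | ∀ t ∈ T, Hit t s x} ≤
        ENNReal.ofReal (C * (s * (1 + s) ^ r) * (Real.log N ^ τ / Real.log N ^ (r + 1))) := by
  obtain ⟨C, hC, h⟩ := multi r a b κ τ ha hab hκ hκ1 hτ
  have hba : 0 < b - a := by linarith
  refine ⟨C / (b - a), by positivity, ?_⟩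
  filter_upwards [h] with N h1 s hs0 hs1 T hTc hT hgap
  have h2 := h1 s hs0 hs1 (fun j => T.orderEmbOfFin hTc j) (fun j => hT _ (orderEmbOfFin_mem _ _ _))
    (fun i j hij => hgap _ (orderEmbOfFin_mem _ _ _) _ (orderEmbOfFin_mem _ _ _) ((T.orderEmbOfFin hTc).strictMono hij))
  have h3 : {x | ∀ t ∈ T, Hit t s x} = {x | ∀ j, Hit (T.orderEmbOfFin hTc j) s x} := by
    ext x
    simp only [Set.mem_ofPred_eq]
    constructor
    · intro h j
      exact h _ (orderEmbOfFin_mem _ _ _)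
    · intro h t ht
      have : t ∈ Set.range (T.orderEmbOfFin hTc) := by
        rw [range_orderEmbOfFin]
        exact ht
      obtain ⟨j, rfl⟩ := this
      exact h j
  rw [h3]
  refine (nu_le hab _ h2).trans (ENNReal.ofReal_le_ofReal (le_of_eq ?_))
  ring

/-- some point is missed: the probability is small -/
lemma upper (a b : ℝ) (ha : 0 < a) (hab : a < b) (N k : ℕ) (hN : 1 ≤ N) (s η q : ℝ) (hs : 0 < s) (hη : 0 < η) (hη1 : η < 1)
    (hsN : s ≤ N) (hq : ∀ t : ℝ, (N : ℝ) ≤ t → t ≤ 3 * N → ENNReal.ofReal q ≤ nu a b {x | Hit t ((1 - η) * s) x}) :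
    Measure.pi (fun _ : Fin k => nu a b) {x | ∃ t : ℝ, (N : ℝ) ≤ t ∧ t ≤ 2 * N ∧ ∀ i, ¬ Hit t s (x i)} ≤
      ENNReal.ofReal ((N / (η * s) + 2) * Real.exp (-(k * q))) := by
  have hN0 : (0 : ℝ) < N := by exact_mod_cast hN
  have hpr := nu_prob hab
  obtain ⟨J, hJ⟩ : ∃ J : ℕ, J = ⌊N / (η * s)⌋₊ + 1 := ⟨_, rfl⟩
  have hηs : 0 < η * s := by positivity
  have hJr : (J : ℝ) ≤ N / (η * s) + 1 := by
    rw [hJ]
    push_cast
    have := Nat.floor_le (show 0 ≤ N / (η * s) by positivity)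
    linarith
  have hsub : {x : Fin k → ℝ | ∃ t : ℝ, (N : ℝ) ≤ t ∧ t ≤ 2 * N ∧ ∀ i, ¬ Hit t s (x i)} ⊆
      (⋃ i, {x : Fin k → ℝ | x i < 0}) ∪ ⋃ j ∈ range (J + 1), {x : Fin k → ℝ | ∀ i, x i ∉ {y | Hit (N + j * (η * s)) ((1 - η) * s) y}} := by
    rintro x ⟨t, ht1, ht2, hx⟩
    by_cases hneg : ∃ i, x i < 0
    · left
      rw [Set.mem_iUnion]
      exact hneg
    right
    push Not at hneg
    rw [Set.mem_iUnion₂]
    have h0 : 0 ≤ (t - N) / (η * s) := div_nonneg (by linarith) hηs.le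
    obtain ⟨j, hj⟩ : ∃ j : ℕ, j = ⌊(t - N) / (η * s)⌋₊ := ⟨_, rfl⟩
    have h1 : (j : ℝ) ≤ (t - N) / (η * s) := by rw [hj]; exact Nat.floor_le h0
    have h2 : (t - N) / (η * s) < j + 1 := by rw [hj]; exact Nat.lt_floor_add_one _
    rw [le_div_iff₀ hηs] at h1
    rw [div_lt_iff₀ hηs] at h2
    refine ⟨j + 1, ?_, ?_⟩
    · rw [mem_range, hJ, hj, Nat.lt_succ_iff, Nat.add_le_add_iff_right]
      apply Nat.floor_le_floor
      apply div_le_div_of_nonneg_right _ hηs.le
      linarith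
    · intro i hi
      apply hx i
      obtain ⟨p, hp, h3, h4⟩ := hi
      refine ⟨p, hp, lt_of_le_of_lt ?_ h3, h4.trans ?_⟩
      · apply mul_le_mul_of_nonneg_left _ (hneg i)
        push_cast
        linarith
      · apply mul_le_mul_of_nonneg_left _ (hneg i)
        push_cast
        linarith
  have hz : Measure.pi (fun _ : Fin k => nu a b) (⋃ i, {x : Fin k → ℝ | x i < 0}) = 0 := by
    rw [measure_iUnion_null_iff]
    intro i
    have h1 : {x : Fin k → ℝ | x i < 0} = (fun x : Fin k → ℝ => x i) ⁻¹' Set.Iio 0 := rfl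
    rw [h1, (measurePreserving_eval (fun _ : Fin k => nu a b) i).measure_preimage measurableSet_Iio.nullMeasurableSet,
      nu_apply]
    have : Set.Icc a b ∩ Set.Iio 0 = ∅ := by
      ext y
      simp only [Set.mem_inter_iff, Set.mem_Icc, Set.mem_Iio, Set.mem_empty_iff_false, iff_false, not_and, not_lt]
      intro h
      linarith [h.1]
    rw [this, measure_empty, mul_zero]
  refine (measure_mono hsub).trans ((measure_union_le _ _).trans ?_)
  rw [hz, zero_add]
  refine (measure_biUnion_finset_le _ _).trans ?_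
  calc ∑ j ∈ range (J + 1), Measure.pi (fun _ : Fin k => nu a b)
        {x : Fin k → ℝ | ∀ i, x i ∉ {y | Hit (N + j * (η * s)) ((1 - η) * s) y}} ≤
        ∑ _j ∈ range (J + 1), ENNReal.ofReal (Real.exp (-(k * q))) := by
        apply sum_le_sum
        intro j hj
        rw [mem_range, Nat.lt_succ_iff] at hj
        have hj' : (j : ℝ) ≤ N / (η * s) + 1 := by
          refine le_trans ?_ hJr
          exact_mod_cast hj
        have h1 : (j : ℝ) * (η * s) ≤ N + η * s := by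
          calc (j : ℝ) * (η * s) ≤ (N / (η * s) + 1) * (η * s) := mul_le_mul_of_nonneg_right hj' hηs.le
            _ = _ := by field_simp
        have h2 : 0 ≤ (j : ℝ) * (η * s) := by positivity
        have h3 : η * s ≤ N := by nlinarith
        apply miss_eq (nu a b) _ (hit_meas _ _ (by linarith) (mul_nonneg (by linarith) hs.le)) k q
        apply hq
        · linarith
        · linarith
    _ = ENNReal.ofReal (((J + 1 : ℕ) : ℝ) * Real.exp (-(k * q))) := by
        rw [sum_const, card_range, nsmul_eq_mul, ENNReal.ofReal_mul (Nat.cast_nonneg _), ENNReal.ofReal_natCast]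
    _ ≤ _ := by
        apply ENNReal.ofReal_le_ofReal
        apply mul_le_mul_of_nonneg_right _ (Real.exp_pos _).le
        push_cast
        linarith

end Pool.Agent.NH15.SD
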