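import Pool.Agent.NH15.SD.S5

set_option autoImplicit false

/-! Some point is missed by all the dilations. -/

namespace Pool.Agent.NH15.SD

open Finset Filter MeasureTheory
open Pool.Agent.W301.SS (ev_L ev_log)

lemma ev_Lpow (c s : ℝ) (hs : 0 < s) : ∀ᶠ N : ℕ in atTop, c ≤ Real.log (N : ℝ) ^ s := by
  have h1 : Tendsto (fun x : ℝ => x ^ s) atTop atTop := tendsto_rpow_atTop hs
  exact (h1.comp (Real.tendsto_log_atTop.comp tendsto_natCast_atTop_atTop)).eventually_ge_atTop c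

lemma arith1 (E w X Y : ℝ) (hE : 0 < E) (hE1 : E ≤ 1 / 2) (hw : 0 ≤ w) (hX : X ≤ E / 32 * ((1 + E / 4) * w))
    (hY : Y ≤ E / 16 * w) : 1 + ((1 + E / 4) * w + 2 * (X + Y)) ≤ 1 + (1 + E / 2) * w := by
  have h1 : 0 ≤ E * w := by positivity
  have h2 : E * (E * w) ≤ 1 / 2 * (E * w) := mul_le_mul_of_nonneg_right hE1 h1
  nlinarith

/-- with a probability close to `1` some point is missed -/
lemma lower (a b E δ : ℝ) (A D : ℕ) (ha : 0 < a) (hab : a < b) (hE : 0 < E) (hE1 : E ≤ 1 / 2) (hδ : 0 < δ)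
    (hδ1 : δ ≤ 1 / 2) : ∀ᶠ N : ℕ in atTop, ∀ k : ℕ, Real.log N ^ (1 + δ) ≤ k → (k : ℝ) ≤ Real.log N ^ A →
      Measure.pi (fun _ : Fin k => nu a b) {x | ¬ ∃ t : ℝ, (N : ℝ) ≤ t ∧
        t + (1 - E) * (Real.log N ^ 2 / ((a + b) / 2 * k)) ≤ 2 * N ∧
        ∀ i, ¬ Hit t ((1 - E) * (Real.log N ^ 2 / ((a + b) / 2 * k))) (x i)} ≤ ENNReal.ofReal (1 / Real.log N ^ D) := by
  classical
  have hb : 0 < b := ha.trans hab
  obtain ⟨μ, hμ⟩ : ∃ μ : ℝ, μ = (a + b) / 2 := ⟨_, rfl⟩
  have hμ0 : 0 < μ := by rw [hμ]; positivity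
  rw [← hμ]
  obtain ⟨r, hr⟩ : ∃ r : ℕ, (D + A + δ / 2 + 2) / δ ≤ r := exists_nat_ge _
  rw [div_le_iff₀ hδ] at hr
  obtain ⟨c, hc, hone⟩ := one' a b (E / 4) ha hab (by positivity) (by linarith)
  obtain ⟨Cr, hCr, hmr⟩ := multi' r a b (E / 8) (δ / 2) ha hab (by positivity) (by linarith) (by positivity)
  obtain ⟨C2, hC2, hm2⟩ := multi' 1 a b (E / 8) (δ / 2) ha hab (by positivity) (by linarith) (by positivity)
  obtain ⟨C3, hC3⟩ : ∃ C3 : ℝ, C3 = 1 + 1 / μ := ⟨_, rfl⟩
  have hC30 : 0 < C3 := by rw [hC3]; positivity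
  obtain ⟨C4, hC4⟩ : ∃ C4 : ℝ, C4 = (2 * b + 3) / a := ⟨_, rfl⟩
  have hC40 : 0 < C4 := by rw [hC4]; positivity
  filter_upwards [hone, hmr, hm2, ev_L 1, ev_Lpow (1 / (μ * min c 1)) δ hδ, ev_pow (32 / E) (E / 8) (by positivity),
    ev_pow (4 * (r + 1)) (E / 8) (by positivity),
    ev_Lpow (C3 * (4 * C2) / (E / 4 * μ)) (δ / 2) (by positivity),
    ev_L (2 * (4 ^ (r + 1) * Cr * C3 ^ (r + 1))), ev_log (D + 1) (2 * C4) (E / 4) (by positivity),
    ev_pow 2 (E / 8) (by positivity), ev_log 1 2 1 one_pos, eventually_ge_atTop 1] with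
    N h1 hmr hm2 hL1 hLc hNE hNr hLC hLD hND hN2 hNL hN1 k hk1 hk2
  obtain ⟨L, hLd⟩ : ∃ L, L = Real.log (N : ℝ) := ⟨_, rfl⟩
  rw [← hLd] at h1 hmr hm2 hL1 hLc hLC hLD hND hNL hk1 hk2 ⊢
  rw [Real.rpow_one, pow_one] at hNL
  have hL0 : 0 < L := by linarith
  have hN0 : (0 : ℝ) < N := by exact_mod_cast hN1
  have hk0 : (0 : ℝ) < k := lt_of_lt_of_le (by positivity) hk1
  obtain ⟨s, hs⟩ : ∃ s : ℝ, s = (1 - E) * (L ^ 2 / (μ * k)) := ⟨_, rfl⟩
  have hs0 : 0 < s := by
    rw [hs]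
    have : 0 < 1 - E := by linarith
    positivity
  rw [← hs]
  -- the size of `s`
  have hsup : s ≤ L ^ (1 - δ) / μ := by
    have h2 : s ≤ L ^ 2 / (μ * k) := by
      rw [hs]
      have : 0 ≤ L ^ 2 / (μ * k) := by positivity
      exact mul_le_of_le_one_left this (by linarith)
    refine h2.trans ?_
    rw [div_le_div_iff₀ (by positivity) hμ0]
    have h3 : L ^ (1 - δ) * L ^ (1 + δ) = L ^ 2 := by
      rw [← Real.rpow_add hL0, ← Real.rpow_natCast]
      congr 1
      push_cast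
      ring
    calc L ^ 2 * μ = L ^ (1 - δ) * L ^ (1 + δ) * μ := by rw [h3]
      _ ≤ L ^ (1 - δ) * k * μ := by
          apply mul_le_mul_of_nonneg_right _ hμ0.le
          exact mul_le_mul_of_nonneg_left hk1 (by positivity)
      _ = _ := by ring
  have hLδ : L ^ (1 - δ) * L ^ δ = L := by
    rw [← Real.rpow_add hL0]
    norm_num
  have hscl : s ≤ min c 1 * L := by
    refine hsup.trans ?_
    rw [div_le_iff₀ hμ0]
    have hmin : 0 < min c 1 := lt_min hc one_pos
    rw [div_le_iff₀ (by positivity)] at hLc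
    calc L ^ (1 - δ) = L ^ (1 - δ) * 1 := (mul_one _).symm
      _ ≤ L ^ (1 - δ) * (L ^ δ * (μ * min c 1)) := mul_le_mul_of_nonneg_left hLc (by positivity)
      _ = L ^ (1 - δ) * L ^ δ * (μ * min c 1) := by ring
      _ = _ := by rw [hLδ]; ring
  have hsc : s ≤ c * L := hscl.trans (mul_le_mul_of_nonneg_right (min_le_left _ _) hL0.le)
  have hsL : s ≤ L := by
    have := mul_le_mul_of_nonneg_right (min_le_right c 1) hL0.le
    linarith
  have h1s : 1 + s ≤ C3 * L ^ (1 - δ) := by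
    have h2 : 1 ≤ L ^ (1 - δ) := Real.one_le_rpow hL1 (by linarith)
    rw [hC3]
    have h3 : (1 + 1 / μ) * L ^ (1 - δ) = L ^ (1 - δ) + L ^ (1 - δ) / μ := by ring
    linarith
  -- the points
  obtain ⟨σ, hσ⟩ : ∃ σ : ℝ, σ = (2 * b * s + 3) / a := ⟨_, rfl⟩
  have hσ0 : 0 < σ := by rw [hσ]; positivity
  have hσL : σ ≤ C4 * L := by
    rw [hσ, hC4, div_mul_eq_mul_div]
    apply div_le_div_of_nonneg_right _ ha.le
    have := mul_le_mul_of_nonneg_left hsL (show 0 ≤ 2 * b by positivity)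
    linarith
  obtain ⟨R, hR⟩ : ∃ R : ℝ, R = (N : ℝ) ^ (1 - E / 8) := ⟨_, rfl⟩
  have hR0 : 0 < R := by rw [hR]; positivity
  obtain ⟨θ, hθ⟩ : ∃ θ : ℝ, θ = (N : ℝ) ^ (E / 8) := ⟨_, rfl⟩
  have hθ0 : 0 < θ := by rw [hθ]; positivity
  have hRθ : R * θ = N := by
    rw [hR, hθ, ← Real.rpow_add hN0]
    norm_num
  rw [← hθ] at hNE hNr hN2
  have hRN : R + s ≤ N := by
    have h2 : 2 * R ≤ N := by
      rw [← hRθ, mul_comm R θ]
      exact mul_le_mul_of_nonneg_right hN2 hR0.le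
    linarith
  obtain ⟨J, hJ⟩ : ∃ J : ℕ, J = ⌊R / σ⌋₊ + 1 := ⟨_, rfl⟩
  have hJ1 : R / σ ≤ J := by
    rw [hJ]
    push_cast
    exact (Nat.lt_floor_add_one _).le
  obtain ⟨f, hf⟩ : ∃ f : ℕ → ℝ, f = fun j : ℕ => (N : ℝ) + (j : ℝ) * σ := ⟨_, rfl⟩
  have hfmono : StrictMono f := by
    intro i j hij
    rw [hf]
    have : (i : ℝ) < j := by exact_mod_cast hij
    have h3 := mul_lt_mul_of_pos_right this hσ0
    simp only
    linarith
  obtain ⟨S0, hS0⟩ : ∃ S0 : Finset ℝ, S0 = (range J).image f := ⟨_, rfl⟩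
  have hS0c : S0.card = J := by
    rw [hS0, card_image_of_injective _ hfmono.injective, card_range]
  have hS0m : ∀ t ∈ S0, (N : ℝ) ≤ t ∧ t ≤ N + R := by
    intro t ht
    rw [hS0, mem_image] at ht
    obtain ⟨j, hj, rfl⟩ := ht
    rw [mem_range, hJ, Nat.lt_succ_iff] at hj
    have h2 : (j : ℝ) ≤ R / σ := by
      refine le_trans ?_ (Nat.floor_le (by positivity))
      exact_mod_cast hj
    rw [le_div_iff₀ hσ0] at h2
    have h3 : 0 ≤ (j : ℝ) * σ := by positivity
    rw [hf]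
    simp only
    constructor <;> linarith
  have hgap : ∀ t ∈ S0, ∀ t' ∈ S0, t < t' → t + (2 * b * s + 3) / a ≤ t' := by
    intro t ht t' ht' hlt
    rw [hS0, mem_image] at ht ht'
    obtain ⟨i, hi, rfl⟩ := ht
    obtain ⟨j, hj, rfl⟩ := ht'
    have h2 : i < j := hfmono.lt_iff_lt.1 hlt
    have h3 : (i : ℝ) + 1 ≤ j := by exact_mod_cast h2
    have h4 := mul_le_mul_of_nonneg_right h3 hσ0.le
    rw [← hσ, hf]
    simp only
    linarith
  have hpr := nu_prob hab
  obtain ⟨Hs, hHs⟩ : ∃ Hs : ℝ → Set ℝ, Hs = fun t => {x | Hit t s x} := ⟨_, rfl⟩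
  have hHm : ∀ t ∈ S0, MeasurableSet (Hs t) := by
    intro t ht
    rw [hHs]
    exact hit_meas t s (by linarith [(hS0m t ht).1]) hs0.le
  have hRe : R = (N : ℝ) ^ (1 - E / 8) := hR
  -- the probabilities
  obtain ⟨q, hq⟩ : ∃ q : ℝ, q = (1 + E / 4) * μ * (s / L) := ⟨_, rfl⟩
  have hq0 : 0 ≤ q := by rw [hq]; positivity
  obtain ⟨Q2, hQ2⟩ : ∃ Q2 : ℝ, Q2 = C2 * (s * (1 + s) ^ 1) * (L ^ (δ / 2) / L ^ (1 + 1)) := ⟨_, rfl⟩
  have hQ20 : 0 ≤ Q2 := by rw [hQ2]; positivity
  obtain ⟨Qr, hQr⟩ : ∃ Qr : ℝ, Qr = Cr * (s * (1 + s) ^ r) * (L ^ (δ / 2) / L ^ (r + 1)) := ⟨_, rfl⟩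
  have hQr0 : 0 ≤ Qr := by rw [hQr]; positivity
  obtain ⟨ε, hε⟩ : ∃ ε : ℝ, ε = (1 + E / 2) * μ * (s / L) := ⟨_, rfl⟩
  have hε0 : 0 ≤ ε := by rw [hε]; positivity
  have key := chainM (nu a b) Hs S0 hHm θ ε (4 ^ (r + 1) * Qr) hθ0 hε0 (by positivity) (by
      intro S hS hSc
      have hSr : 4 * (r + 1) ≤ S.card := by
        have : ((4 * (r + 1) : ℕ) : ℝ) ≤ S.card := by
          push_cast
          linarith
        exact_mod_cast this
      apply bad_le (nu a b) Hs S (fun t ht => hHm t (hS ht)) (r + 1) Qr hQr0 _ hSr (by omega)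
      intro T hT hTc
      have h2 := hmr s hs0.le hsL T hTc (fun t ht => by rw [← hRe]; exact hS0m t (hS (hT ht)))
        (fun t ht t' ht' => hgap t (hS (hT ht)) t' (hS (hT ht')))
      rw [hQr, hHs]
      exact h2) (by
      intro S hS hSc
      have hSn : S.Nonempty := by
        rw [← card_pos]
        have : (0 : ℝ) < S.card := by linarith
        exact_mod_cast this
      have hS0' : (0 : ℝ) < S.card := by linarith
      have h2 := mean_le (nu a b) Hs S (fun t ht => hHm t (hS ht)) hSn q Q2 hq0 hQ20 (by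
        intro t ht
        have h3 := hS0m t (hS ht)
        rw [hHs, hq, hμ]
        exact (h1 t s h3.1 (by linarith) hs0.le hsc).1) (by
        intro t ht t' ht' hlt
        have h3 := hm2 s hs0.le hsL {t, t'} (by rw [card_pair hlt.ne]) (by
            intro u hu
            rw [← hRe]
            rw [mem_insert, mem_singleton] at hu
            rcases hu with rfl | rfl
            · exact hS0m _ (hS ht)
            · exact hS0m _ (hS ht')) (by
            intro u hu v hv huv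
            rw [mem_insert, mem_singleton] at hu hv
            rcases hu with rfl | rfl <;> rcases hv with rfl | rfl
            · exact absurd huv (lt_irrefl _)
            · exact hgap _ (hS ht) _ (hS ht') huv
            · exact absurd huv (not_lt.2 hlt.le)
            · exact absurd huv (lt_irrefl _))
        rw [hQ2, hHs]
        refine le_trans (measure_mono ?_) h3
        rintro x ⟨g1, g2⟩ u hu
        rw [mem_insert, mem_singleton] at hu
        rcases hu with rfl | rfl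
        · exact g1
        · exact g2)
      refine h2.trans (ENNReal.ofReal_le_ofReal ?_)
      have h3 : q / S.card ≤ q / θ := div_le_div_of_nonneg_left hq0 hθ0 hSc
      have h4 : q / θ ≤ E / 32 * q := by
        rw [div_le_iff₀ hθ0]
        have h5 : 32 ≤ θ * E := by rwa [div_le_iff₀ hE] at hNE
        have h6 := mul_le_mul_of_nonneg_left h5 hq0
        linarith
      have h5 : Q2 ≤ E / 4 * μ / 4 * (s / L) := by
        have h6 : Q2 = C2 * ((1 + s) * L ^ (δ / 2)) * s / (L * L) := by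
          rw [hQ2]
          ring
        have h7 : C2 * ((1 + s) * L ^ (δ / 2)) ≤ E / 4 * μ / 4 * L := by
          have h8 : C2 * ((1 + s) * L ^ (δ / 2)) ≤ C2 * ((C3 * L ^ (1 - δ)) * L ^ (δ / 2)) := by
            apply mul_le_mul_of_nonneg_left _ hC2.le
            exact mul_le_mul_of_nonneg_right h1s (by positivity)
          have h9 : L ^ (1 - δ) * L ^ (δ / 2) * L ^ (δ / 2) = L := by
            rw [← Real.rpow_add hL0, ← Real.rpow_add hL0]
            have : 1 - δ + δ / 2 + δ / 2 = 1 := by ring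
            rw [this, Real.rpow_one]
          rw [div_le_iff₀ (by positivity)] at hLC
          have h10 : C3 * C2 ≤ L ^ (δ / 2) * (E / 4 * μ / 4) := by linarith
          calc C2 * ((1 + s) * L ^ (δ / 2)) ≤ C3 * C2 * (L ^ (1 - δ) * L ^ (δ / 2)) := by linarith
            _ ≤ L ^ (δ / 2) * (E / 4 * μ / 4) * (L ^ (1 - δ) * L ^ (δ / 2)) :=
                mul_le_mul_of_nonneg_right h10 (by positivity)
            _ = E / 4 * μ / 4 * (L ^ (1 - δ) * L ^ (δ / 2) * L ^ (δ / 2)) := by ring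
            _ = _ := by rw [h9]
        rw [h6, div_le_iff₀ (by positivity)]
        calc C2 * ((1 + s) * L ^ (δ / 2)) * s ≤ E / 4 * μ / 4 * L * s := mul_le_mul_of_nonneg_right h7 hs0.le
          _ = _ := by field_simp
      have h6 : 0 ≤ μ * (s / L) := by positivity
      have h7 : q = (1 + E / 4) * (μ * (s / L)) := by rw [hq]; ring
      have h8 : ε = (1 + E / 2) * (μ * (s / L)) := by rw [hε]; ring
      have h9 : Q2 ≤ E / 16 * (μ * (s / L)) := by
        have : E / 4 * μ / 4 * (s / L) = E / 16 * (μ * (s / L)) := by ring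
        linarith
      rw [h7] at h3 h4 ⊢
      rw [h8]
      exact arith1 E (μ * (s / L)) _ _ hE hE1 h6 (h3.trans h4) h9) k S0 (Subset.refl _) (by
      rw [← card_pos, hS0c, hJ]
      omega)
  -- the conclusion
  have hsub : {x : Fin k → ℝ | ¬ ∃ t : ℝ, (N : ℝ) ≤ t ∧ t + s ≤ 2 * N ∧ ∀ i, ¬ Hit t s (x i)} ⊆
      {x | ((sv Hs S0 x).card : ℝ) < θ} := by
    intro x hx
    rw [Set.mem_ofPred_eq] at hx ⊢
    by_contra hcon
    rw [not_lt] at hcon
    apply hx
    have h2 : (sv Hs S0 x).Nonempty := by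
      rw [← card_pos]
      have : (0 : ℝ) < ((sv Hs S0 x).card : ℝ) := by linarith
      exact_mod_cast this
    obtain ⟨t, ht⟩ := h2
    unfold sv at ht
    rw [mem_filter] at ht
    have h3 := hS0m t ht.1
    refine ⟨t, h3.1, by linarith, fun i => ?_⟩
    have h4 := ht.2 i
    rw [hHs] at h4
    exact h4
  refine (measure_mono hsub).trans (key.trans (ENNReal.ofReal_le_ofReal ?_))
  rw [hS0c]
  have hJ0 : (0 : ℝ) < J := lt_of_lt_of_le (by positivity) hJ1
  -- the main term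
  have g1 : θ / J * (1 + ε) ^ k ≤ 1 / L ^ D / 2 := by
    have g2 : (1 + ε) ^ k ≤ (N : ℝ) ^ (1 - E / 2) := by
      calc (1 + ε) ^ k ≤ (Real.exp ε) ^ k := by
            apply pow_le_pow_left₀ (by positivity)
            have := Real.add_one_le_exp ε
            linarith
        _ = Real.exp (k * ε) := by rw [← Real.exp_nat_mul]
        _ ≤ Real.exp (L * (1 - E / 2)) := by
            apply Real.exp_le_exp.2
            have g3 : (k : ℝ) * ε = (1 + E / 2) * (1 - E) * L := by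
              rw [hε, hs]
              field_simp
            rw [g3]
            have : (1 + E / 2) * (1 - E) ≤ 1 - E / 2 := by linarith [mul_self_nonneg E]
            have g4 := mul_le_mul_of_nonneg_right this hL0.le
            linarith
        _ = _ := by rw [hLd, ← Real.rpow_def_of_pos hN0]
    have g3 : θ / J ≤ C4 * L * (θ / R) := by
      calc θ / J ≤ θ / (R / σ) := div_le_div_of_nonneg_left hθ0.le (by positivity) hJ1
        _ = σ * (θ / R) := by field_simp
        _ ≤ C4 * L * (θ / R) := mul_le_mul_of_nonneg_right hσL (by positivity)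
    have g4 : θ / R * (N : ℝ) ^ (1 - E / 2) = 1 / (N : ℝ) ^ (E / 4) := by
      rw [div_mul_eq_mul_div, div_eq_div_iff hR0.ne' (by positivity), hθ, hR, one_mul, ← Real.rpow_add hN0,
        ← Real.rpow_add hN0]
      congr 1
      ring
    calc θ / J * (1 + ε) ^ k ≤ (C4 * L * (θ / R)) * (N : ℝ) ^ (1 - E / 2) :=
          mul_le_mul g3 g2 (by positivity) (by positivity)
      _ = C4 * L * (θ / R * (N : ℝ) ^ (1 - E / 2)) := by ring
      _ = C4 * L / (N : ℝ) ^ (E / 4) := by rw [g4]; ring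
      _ ≤ 1 / L ^ D / 2 := by
          rw [div_div, div_le_div_iff₀ (by positivity) (by positivity), one_mul]
          calc C4 * L * (L ^ D * 2) = 2 * C4 * L ^ (D + 1) := by rw [pow_succ]; ring
            _ ≤ _ := hND
  have g2 : (k : ℝ) * (4 ^ (r + 1) * Qr) ≤ 1 / L ^ D / 2 := by
    have g3 : s * (1 + s) ^ r ≤ (C3 * L ^ (1 - δ)) ^ (r + 1) := by
      rw [pow_succ, mul_comm s]
      exact mul_le_mul (pow_le_pow_left₀ (by positivity) h1s r) (by linarith) hs0.le (by positivity)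
    have g4 : Qr ≤ Cr * C3 ^ (r + 1) * (L ^ (δ / 2 - δ * (r + 1))) := by
      rw [hQr]
      calc Cr * (s * (1 + s) ^ r) * (L ^ (δ / 2) / L ^ (r + 1)) ≤
            Cr * ((C3 * L ^ (1 - δ)) ^ (r + 1)) * (L ^ (δ / 2) / L ^ (r + 1)) := by
            apply mul_le_mul_of_nonneg_right _ (by positivity)
            exact mul_le_mul_of_nonneg_left g3 hCr.le
        _ = _ := by
            rw [mul_pow, ← Real.rpow_natCast (L ^ (1 - δ)), ← Real.rpow_mul hL0.le, ← Real.rpow_natCast L (r + 1),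
              ← Real.rpow_sub hL0, ← mul_assoc, mul_assoc (Cr * C3 ^ (r + 1)), ← Real.rpow_add hL0]
            congr 2
            push_cast
            ring
    have g5 : L ^ (δ / 2 - δ * (r + 1)) * L ^ (D + A + 1) ≤ 1 / L := by
      have g6 : (1 : ℝ) / L = L ^ (-1 : ℝ) := by rw [Real.rpow_neg_one, one_div]
      rw [g6, ← Real.rpow_natCast L (D + A + 1), ← Real.rpow_add hL0]
      apply Real.rpow_le_rpow_of_exponent_le hL1
      push_cast
      linarith
    have g7 : (k : ℝ) * (4 ^ (r + 1) * Qr) ≤ L ^ A * (4 ^ (r + 1) * (Cr * C3 ^ (r + 1) * (L ^ (δ / 2 - δ * (r + 1))))) := by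
      apply mul_le_mul hk2 _ (by positivity) (by positivity)
      exact mul_le_mul_of_nonneg_left g4 (by positivity)
    refine g7.trans ?_
    rw [div_div, le_div_iff₀ (by positivity)]
    calc L ^ A * (4 ^ (r + 1) * (Cr * C3 ^ (r + 1) * L ^ (δ / 2 - δ * (r + 1)))) * (L ^ D * 2) =
          2 * (4 ^ (r + 1) * Cr * C3 ^ (r + 1)) * (L ^ (δ / 2 - δ * (r + 1)) * L ^ (D + A)) := by
          rw [pow_add]
          ring
      _ ≤ 2 * (4 ^ (r + 1) * Cr * C3 ^ (r + 1)) * (1 / L) := by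
          apply mul_le_mul_of_nonneg_left _ (by positivity)
          refine le_trans ?_ g5
          apply mul_le_mul_of_nonneg_left _ (by positivity)
          exact pow_le_pow_right₀ hL1 (by omega)
      _ ≤ 1 := by
          rw [mul_one_div, div_le_one hL0]
          exact hLD
  linarith

end Pool.Agent.NH15.SD
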