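import Pool.Agent.NH15.SD.S6

set_option autoImplicit false

/-! The largest gap of the union of the dilates, almost surely. -/

namespace Pool.Agent.NH15.SD

open Finset Filter MeasureTheory ProbabilityTheory
open scoped ENNReal
open Pool.Agent.W301.SS (ev_L ev_log)

lemma Hit.mono {t s s' x : ℝ} (ht : 0 < t) (hs : 0 ≤ s) (h : s ≤ s') (hx : Hit t s x) : Hit t s' x := by
  obtain ⟨p, hp, h1, h2⟩ := hx
  refine ⟨p, hp, h1, h2.trans ?_⟩
  have h3 : 0 < x := by
    by_contra hcon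
    rw [not_lt] at hcon
    have h4 : x * (t + s) ≤ 0 := mul_nonpos_of_nonpos_of_nonneg hcon (by linarith)
    have h5 : (0 : ℝ) < p := by exact_mod_cast hp.pos
    linarith
  exact mul_le_mul_of_nonneg_left (by linarith) h3.le

lemma up_sharp (a b E δ : ℝ) (A D : ℕ) (ha : 0 < a) (hab : a < b) (hE : 0 < E) (hE1 : E ≤ 1 / 2) (hδ : 0 < δ) :
    ∀ᶠ N : ℕ in atTop, ∀ k : ℕ, Real.log N ^ (1 + δ) ≤ k → (k : ℝ) ≤ Real.log N ^ A →
      Measure.pi (fun _ : Fin k => nu a b) {x | ∃ t : ℝ, (N : ℝ) ≤ t ∧ t ≤ 2 * N ∧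
        ∀ i, ¬ Hit t ((1 + E) * (Real.log N ^ 2 / ((a + b) / 2 * k))) (x i)} ≤ ENNReal.ofReal (1 / Real.log N ^ D) := by
  have hb : 0 < b := ha.trans hab
  obtain ⟨c, hc, hone⟩ := one' a b (E / 8) ha hab (by positivity) (by linarith)
  obtain ⟨μ, hμ⟩ : ∃ μ : ℝ, μ = (a + b) / 2 := ⟨_, rfl⟩
  have hμ0 : 0 < μ := by rw [hμ]; positivity
  rw [← hμ] at hone ⊢
  filter_upwards [hone, ev_L 1, ev_Lpow (2 / (μ * min c 1)) δ hδ, ev_log (A + D) (8 * μ / E + 2) (E / 2) (by positivity),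
    ev_log 1 1 1 one_pos, eventually_ge_atTop 1] with N h1 hL1 hLc hND hNL hN1 k hk1 hk2
  obtain ⟨L, hLd⟩ : ∃ L, L = Real.log (N : ℝ) := ⟨_, rfl⟩
  rw [← hLd] at h1 hL1 hLc hND hNL hk1 hk2 ⊢
  rw [Real.rpow_one, pow_one] at hNL
  have hL0 : 0 < L := by linarith
  have hN0 : (0 : ℝ) < N := by exact_mod_cast hN1
  have hk0 : (0 : ℝ) < k := lt_of_lt_of_le (by positivity) hk1
  obtain ⟨s, hs⟩ : ∃ s : ℝ, s = (1 + E) * (L ^ 2 / (μ * k)) := ⟨_, rfl⟩
  have hs0 : 0 < s := by rw [hs]; positivity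
  rw [← hs]
  have hsup : s ≤ 2 * L ^ (1 - δ) / μ := by
    have h2 : s ≤ 2 * (L ^ 2 / (μ * k)) := by
      rw [hs]
      exact mul_le_mul_of_nonneg_right (by linarith) (by positivity)
    refine h2.trans ?_
    rw [← mul_div_assoc, div_le_div_iff₀ (by positivity) hμ0]
    have h3 : L ^ (1 - δ) * L ^ (1 + δ) = L ^ 2 := by
      rw [← Real.rpow_add hL0, ← Real.rpow_natCast]
      congr 1
      push_cast
      ring
    calc 2 * L ^ 2 * μ = 2 * (L ^ (1 - δ) * L ^ (1 + δ)) * μ := by rw [h3]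
      _ ≤ 2 * (L ^ (1 - δ) * k) * μ := by
          apply mul_le_mul_of_nonneg_right _ hμ0.le
          apply mul_le_mul_of_nonneg_left _ (by norm_num)
          exact mul_le_mul_of_nonneg_left hk1 (by positivity)
      _ = _ := by ring
  have hLδ : L ^ (1 - δ) * L ^ δ = L := by
    rw [← Real.rpow_add hL0]
    norm_num
  have hscl : s ≤ min c 1 * L := by
    refine hsup.trans ?_
    rw [div_le_iff₀ hμ0]
    have hmin : 0 < min c 1 := lt_min hc one_pos
    rw [div_le_iff₀ (by positivity)] at hLc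
    calc 2 * L ^ (1 - δ) = L ^ (1 - δ) * 2 := mul_comm _ _
      _ ≤ L ^ (1 - δ) * (L ^ δ * (μ * min c 1)) := mul_le_mul_of_nonneg_left hLc (by positivity)
      _ = L ^ (1 - δ) * L ^ δ * (μ * min c 1) := by ring
      _ = _ := by rw [hLδ]; ring
  have hsc : s ≤ c * L := hscl.trans (mul_le_mul_of_nonneg_right (min_le_left _ _) hL0.le)
  have hsL : s ≤ L := by
    have := mul_le_mul_of_nonneg_right (min_le_right c 1) hL0.le
    linarith
  have hsN : s ≤ N := by linarith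
  obtain ⟨q, hq⟩ : ∃ q : ℝ, q = (1 - E / 8) * μ * ((1 - E / 8) * s / L) := ⟨_, rfl⟩
  have h2 := upper a b ha hab N k hN1 s (E / 8) q hs0 (by positivity) (by linarith) hsN (by
    intro t ht1 ht2
    have h3 : (1 - E / 8) * s ≤ s := mul_le_of_le_one_left hs0.le (by linarith)
    rw [hq]
    exact (h1 t ((1 - E / 8) * s) ht1 ht2 (mul_nonneg (by linarith) hs0.le) (h3.trans hsc)).2)
  refine h2.trans (ENNReal.ofReal_le_ofReal ?_)
  have hkq : (1 + E / 2) * L ≤ k * q := by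
    have h3 : (k : ℝ) * q = (1 - E / 8) ^ 2 * (1 + E) * L := by
      rw [hq, hs]
      field_simp
    rw [h3]
    apply mul_le_mul_of_nonneg_right _ hL0.le
    have h4 : 1 - E / 4 ≤ (1 - E / 8) ^ 2 := by nlinarith [sq_nonneg (E / 8)]
    have h5 : (1 - E / 4) * (1 + E) ≤ (1 - E / 8) ^ 2 * (1 + E) := mul_le_mul_of_nonneg_right h4 (by linarith)
    have h6 : E * E ≤ 1 / 2 * E := mul_le_mul_of_nonneg_right hE1 hE.le
    linarith
  have hexp : Real.exp (-(k * q)) ≤ 1 / (N : ℝ) * (1 / (N : ℝ) ^ (E / 2)) := by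
    have h3 : Real.exp (-(k * q)) ≤ Real.exp (-((1 + E / 2) * L)) := Real.exp_le_exp.2 (by linarith)
    refine h3.trans (le_of_eq ?_)
    rw [one_div, one_div, ← Real.rpow_neg hN0.le, Real.rpow_def_of_pos hN0, ← hLd, show (N : ℝ)⁻¹ = Real.exp (-L) by
      rw [Real.exp_neg, hLd, Real.exp_log hN0], ← Real.exp_add]
    congr 1
    ring
  have hslow : 1 ≤ s * (μ * L ^ A) := by
    have h3 : L ^ 2 / (μ * k) ≤ s := by
      rw [hs]
      have : 0 ≤ L ^ 2 / (μ * k) := by positivity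
      exact le_mul_of_one_le_left this (by linarith)
    have h4 : 1 / (μ * L ^ A) ≤ L ^ 2 / (μ * k) := by
      apply div_le_div₀ (by positivity) (one_le_pow₀ hL1) (by positivity)
      exact mul_le_mul_of_nonneg_left hk2 hμ0.le
    have h5 := h4.trans h3
    rwa [div_le_iff₀ (by positivity)] at h5
  have hgrid : N / (E / 8 * s) + 2 ≤ (8 * μ / E + 2) * L ^ A * N := by
    have h3 : N / (E / 8 * s) ≤ 8 * μ / E * L ^ A * N := by
      rw [div_le_iff₀ (by positivity)]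
      calc (N : ℝ) = N * 1 := (mul_one _).symm
        _ ≤ N * (s * (μ * L ^ A)) := mul_le_mul_of_nonneg_left hslow hN0.le
        _ = _ := by field_simp
    have h4 : (2 : ℝ) ≤ 2 * L ^ A * N := by
      have h5 : (1 : ℝ) ≤ L ^ A := one_le_pow₀ hL1
      have h6 : (1 : ℝ) ≤ N := by exact_mod_cast hN1
      have h7 := one_le_mul_of_one_le_of_one_le h5 h6
      linarith
    linarith
  calc (N / (E / 8 * s) + 2) * Real.exp (-(k * q)) ≤ ((8 * μ / E + 2) * L ^ A * N) * (1 / (N : ℝ) * (1 / (N : ℝ) ^ (E / 2))) :=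
        mul_le_mul hgrid hexp (Real.exp_pos _).le (by positivity)
    _ = (8 * μ / E + 2) * L ^ A / (N : ℝ) ^ (E / 2) := by field_simp
    _ ≤ 1 / L ^ D := by
        rw [div_le_div_iff₀ (by positivity) (by positivity), one_mul]
        calc (8 * μ / E + 2) * L ^ A * L ^ D = (8 * μ / E + 2) * L ^ (A + D) := by rw [pow_add]; ring
          _ ≤ _ := hND

lemma up_order (a b : ℝ) (ha : 0 < a) (hab : a < b) : ∃ C : ℝ, 0 < C ∧ ∀ A D : ℕ,
    ∀ᶠ N : ℕ in atTop, ∀ k : ℕ, C * Real.log N ≤ k → (k : ℝ) ≤ Real.log N ^ A →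
      Measure.pi (fun _ : Fin k => nu a b) {x | ∃ t : ℝ, (N : ℝ) ≤ t ∧ t ≤ 2 * N ∧
        ∀ i, ¬ Hit t (C * Real.log N ^ 2 / k) (x i)} ≤ ENNReal.ofReal (1 / Real.log N ^ D) := by
  have hb : 0 < b := ha.trans hab
  obtain ⟨c, hc, hone⟩ := one' a b (1 / 2) ha hab (by norm_num) (by norm_num)
  obtain ⟨μ, hμ⟩ : ∃ μ : ℝ, μ = (a + b) / 2 := ⟨_, rfl⟩
  have hμ0 : 0 < μ := by rw [hμ]; positivity
  rw [← hμ] at hone
  refine ⟨8 / μ + 4 / (μ * c), by positivity, fun A D => ?_⟩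
  obtain ⟨C, hC⟩ : ∃ C : ℝ, C = 8 / μ + 4 / (μ * c) := ⟨_, rfl⟩
  have hC0 : 0 < C := by rw [hC]; positivity
  have hC1 : 8 ≤ C * μ := by
    have : 0 < 4 / (μ * c) := by positivity
    have h1 : 8 / μ ≤ C := by rw [hC]; linarith
    rwa [div_le_iff₀ hμ0] at h1
  have hC2 : 4 ≤ C * (μ * c) := by
    have : 0 < 8 / μ := by positivity
    have h1 : 4 / (μ * c) ≤ C := by rw [hC]; linarith
    rwa [div_le_iff₀ (by positivity)] at h1
  rw [← hC]
  filter_upwards [hone, ev_L 1, ev_log (A + D) (2 / C + 2) 1 one_pos, ev_log 1 1 1 one_pos, eventually_ge_atTop 1] with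
    N h1 hL1 hND hNL hN1 k hk1 hk2
  obtain ⟨L, hLd⟩ : ∃ L, L = Real.log (N : ℝ) := ⟨_, rfl⟩
  rw [← hLd] at h1 hL1 hND hNL hk1 hk2 ⊢
  rw [Real.rpow_one] at hNL hND
  rw [pow_one] at hNL
  have hL0 : 0 < L := by linarith
  have hN0 : (0 : ℝ) < N := by exact_mod_cast hN1
  have hk0 : (0 : ℝ) < k := lt_of_lt_of_le (by positivity) hk1
  obtain ⟨s, hs⟩ : ∃ s : ℝ, s = C * L ^ 2 / k := ⟨_, rfl⟩
  have hs0 : 0 < s := by rw [hs]; positivity
  rw [← hs]
  have hsL : s ≤ L := by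
    rw [hs, div_le_iff₀ hk0]
    calc C * L ^ 2 = L * (C * L) := by ring
      _ ≤ L * k := mul_le_mul_of_nonneg_left hk1 hL0.le
  have hsN : s ≤ N := by linarith
  obtain ⟨s', hs'⟩ : ∃ s' : ℝ, s' = min (s / 2) (c * L) := ⟨_, rfl⟩
  have hs'0 : 0 < s' := by rw [hs']; exact lt_min (by positivity) (by positivity)
  have hs's : s' ≤ (1 - 1 / 2) * s := by
    have : s' ≤ s / 2 := by rw [hs']; exact min_le_left _ _
    linarith
  obtain ⟨q, hq⟩ : ∃ q : ℝ, q = (1 - 1 / 2) * μ * (s' / L) := ⟨_, rfl⟩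
  have h2 := upper a b ha hab N k hN1 s (1 / 2) q hs0 (by norm_num) (by norm_num) hsN (by
    intro t ht1 ht2
    rw [hq]
    refine ((h1 t s' ht1 ht2 hs'0.le (by rw [hs']; exact min_le_right _ _)).2).trans (measure_mono ?_)
    intro x hx
    exact Hit.mono (by linarith) hs'0.le hs's hx)
  refine h2.trans (ENNReal.ofReal_le_ofReal ?_)
  have hkq : 2 * L ≤ k * q := by
    rw [hq, hs']
    rcases le_total (s / 2) (c * L) with h | h
    · rw [min_eq_left h, hs]
      have : (k : ℝ) * ((1 - 1 / 2) * μ * (C * L ^ 2 / k / 2 / L)) = C * μ * L / 4 := by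
        field_simp
        ring
      rw [this]
      have := mul_le_mul_of_nonneg_right hC1 hL0.le
      linarith
    · rw [min_eq_right h]
      have : (k : ℝ) * ((1 - 1 / 2) * μ * (c * L / L)) = μ * c * k / 2 := by
        field_simp
        ring
      rw [this]
      have h3 : μ * c * (C * L) ≤ μ * c * k := mul_le_mul_of_nonneg_left hk1 (by positivity)
      have h4 := mul_le_mul_of_nonneg_right hC2 hL0.le
      linarith
  have hexp : Real.exp (-(k * q)) ≤ 1 / (N : ℝ) * (1 / N) := by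
    have h3 : Real.exp (-(k * q)) ≤ Real.exp (-(2 * L)) := Real.exp_le_exp.2 (by linarith)
    refine h3.trans (le_of_eq ?_)
    rw [one_div, show (N : ℝ)⁻¹ = Real.exp (-L) by rw [Real.exp_neg, hLd, Real.exp_log hN0], ← Real.exp_add]
    congr 1
    ring
  have hslow : C ≤ s * L ^ A := by
    rw [hs, div_mul_eq_mul_div, le_div_iff₀ hk0]
    calc C * k ≤ C * L ^ A := mul_le_mul_of_nonneg_left hk2 hC0.le
      _ ≤ C * L ^ 2 * L ^ A := by
          apply mul_le_mul_of_nonneg_right _ (by positivity)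
          exact le_mul_of_one_le_right hC0.le (one_le_pow₀ hL1)
  have hgrid : N / (1 / 2 * s) + 2 ≤ (2 / C + 2) * L ^ A * N := by
    have h3 : N / (1 / 2 * s) ≤ 2 / C * L ^ A * N := by
      rw [div_le_iff₀ (by positivity)]
      calc (N : ℝ) = N / C * C := by field_simp
        _ ≤ N / C * (s * L ^ A) := mul_le_mul_of_nonneg_left hslow (by positivity)
        _ = _ := by field_simp
    have h4 : (2 : ℝ) ≤ 2 * L ^ A * N := by
      have h5 : (1 : ℝ) ≤ L ^ A := one_le_pow₀ hL1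
      have h6 : (1 : ℝ) ≤ N := by exact_mod_cast hN1
      have h7 := one_le_mul_of_one_le_of_one_le h5 h6
      linarith
    linarith
  calc (N / (1 / 2 * s) + 2) * Real.exp (-(k * q)) ≤ ((2 / C + 2) * L ^ A * N) * (1 / (N : ℝ) * (1 / N)) :=
        mul_le_mul hgrid hexp (Real.exp_pos _).le (by positivity)
    _ = (2 / C + 2) * L ^ A / N := by field_simp
    _ ≤ 1 / L ^ D := by
        rw [div_le_div_iff₀ (by positivity) (by positivity), one_mul]
        calc (2 / C + 2) * L ^ A * L ^ D = (2 / C + 2) * L ^ (A + D) := by rw [pow_add]; ring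
          _ ≤ _ := hND

/-- every interval of length `s` is hit -/
def AllHit (N k : ℕ) (s : ℝ) (x : ℕ → ℝ) : Prop := ∀ t : ℝ, (N : ℝ) ≤ t → t ≤ 2 * N → ∃ i < k, Hit t s (x i)

/-- some interval of length `s` is not hit -/
def Missed (N k : ℕ) (s : ℝ) (x : ℕ → ℝ) : Prop := ∃ t : ℝ, (N : ℝ) ≤ t ∧ t + s ≤ 2 * N ∧ ∀ i < k, ¬ Hit t s (x i)

/-- the distribution of the first `k` dilations -/
lemma transfer (ν : Measure ℝ) [IsProbabilityMeasure ν] {Ω : Type*} [MeasurableSpace Ω] (P : Measure Ω)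
    [IsProbabilityMeasure P] (X : ℕ → Ω → ℝ) (hXm : ∀ i, Measurable (X i)) (hXi : iIndepFun X P)
    (hX : ∀ i, P.map (X i) = ν) (k : ℕ) (B : Set (Fin k → ℝ)) :
    P {ω | (fun i : Fin k => X i ω) ∈ B} ≤ Measure.pi (fun _ : Fin k => ν) B := by
  have h1 : iIndepFun (fun i : Fin k => X i) P := hXi.precomp Fin.val_injective
  have h2 := (iIndepFun_iff_map_fun_eq_pi_map (fun i : Fin k => (hXm i).aemeasurable)).1 h1
  have h3 : Measure.pi (fun _ : Fin k => ν) = P.map (fun ω (i : Fin k) => X i ω) := by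
    rw [h2]
    simp only [hX]
  rw [h3]
  have hm : Measurable (fun ω (i : Fin k) => X i ω) := measurable_pi_lambda _ fun i => hXm i
  exact Measure.le_map_apply hm.aemeasurable B

end Pool.Agent.NH15.SD
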