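import Pool.Agent.NH15.SD.S7

set_option autoImplicit false

/-! Almost every sequence of dilations. -/

namespace Pool.Agent.NH15.SD

open Finset Filter MeasureTheory ProbabilityTheory
open scoped ENNReal
open Pool.Agent.W301.SS (ev_L ev_log)

lemma fin_event (N k : ℕ) (s : ℝ) {Ω : Type*} (X : ℕ → Ω → ℝ) : {ω | ¬ AllHit N k s (fun i => X i ω)} =
    {ω | (fun i : Fin k => X i ω) ∈ {x : Fin k → ℝ | ∃ t : ℝ, (N : ℝ) ≤ t ∧ t ≤ 2 * N ∧ ∀ i, ¬ Hit t s (x i)}} := by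
  ext ω
  simp only [Set.mem_ofPred_eq, AllHit]
  constructor
  · intro h
    push Not at h
    obtain ⟨t, h1, h2, h3⟩ := h
    exact ⟨t, h1, h2, fun i => h3 i i.2⟩
  · rintro ⟨t, h1, h2, h3⟩ h
    obtain ⟨i, hi, h4⟩ := h t h1 h2
    exact h3 ⟨i, hi⟩ h4

lemma fin_event2 (N k : ℕ) (s : ℝ) {Ω : Type*} (X : ℕ → Ω → ℝ) : {ω | ¬ Missed N k s (fun i => X i ω)} =
    {ω | (fun i : Fin k => X i ω) ∈ {x : Fin k → ℝ | ¬ ∃ t : ℝ, (N : ℝ) ≤ t ∧ t + s ≤ 2 * N ∧ ∀ i, ¬ Hit t s (x i)}} := by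
  ext ω
  simp only [Set.mem_ofPred_eq, Missed]
  rw [not_iff_not]
  constructor
  · rintro ⟨t, h1, h2, h3⟩
    exact ⟨t, h1, h2, fun i => h3 i i.2⟩
  · rintro ⟨t, h1, h2, h3⟩
    exact ⟨t, h1, h2, fun i hi => h3 ⟨i, hi⟩⟩

/-- the properties for one `k` -/
def G1 (a b C E δ : ℝ) (N k : ℕ) (x : ℕ → ℝ) : Prop :=
  (C * Real.log N ≤ k → AllHit N k (C * Real.log N ^ 2 / k) x) ∧
  (Real.log N ^ (1 + δ) ≤ k → AllHit N k ((1 + E) * (Real.log N ^ 2 / ((a + b) / 2 * k))) x ∧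
    Missed N k ((1 - E) * (Real.log N ^ 2 / ((a + b) / 2 * k))) x)

lemma G1_prob (a b : ℝ) (ha : 0 < a) (hab : a < b) : ∃ C : ℝ, 0 < C ∧ ∀ E δ : ℝ, 0 < E → E ≤ 1 / 2 → 0 < δ → δ ≤ 1 / 2 →
    ∀ A : ℕ, ∀ᶠ N : ℕ in atTop, ∀ (Ω : Type) [MeasurableSpace Ω] (P : Measure Ω) [IsProbabilityMeasure P]
      (X : ℕ → Ω → ℝ), (∀ i, Measurable (X i)) → iIndepFun X P → (∀ i, P.map (X i) = nu a b) →
      P {ω | ∃ k : ℕ, (k : ℝ) ≤ Real.log N ^ A ∧ ¬ G1 a b C E δ N k (fun i => X i ω)} ≤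
        ENNReal.ofReal (6 / Real.log N ^ 2) := by
  classical
  obtain ⟨C, hC, hord⟩ := up_order a b ha hab
  refine ⟨C, hC, fun E δ hE hE1 hδ hδ1 A => ?_⟩
  filter_upwards [hord A (A + 3), up_sharp a b E δ A (A + 3) ha hab hE hE1 hδ, lower a b E δ A (A + 3) ha hab hE hE1 hδ hδ1,
    ev_L 1] with N h1 h2 h3 hL1 Ω _ P _ X hXm hXi hX
  have hpr := nu_prob hab
  obtain ⟨L, hLd⟩ : ∃ L, L = Real.log (N : ℝ) := ⟨_, rfl⟩
  have hG : ∀ k : ℕ, (k : ℝ) ≤ L ^ A → P {ω | ¬ G1 a b C E δ N k (fun i => X i ω)} ≤ ENNReal.ofReal (3 / L ^ (A + 3)) := by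
    intro k hk
    rw [hLd] at hk
    have g1 : P {ω | ¬ (C * Real.log N ≤ k → AllHit N k (C * Real.log N ^ 2 / k) (fun i => X i ω))} ≤
        ENNReal.ofReal (1 / L ^ (A + 3)) := by
      by_cases hc : C * Real.log N ≤ k
      · have e : {ω | ¬ (C * Real.log N ≤ k → AllHit N k (C * Real.log N ^ 2 / k) (fun i => X i ω))} =
            {ω | ¬ AllHit N k (C * Real.log N ^ 2 / k) (fun i => X i ω)} := by
          ext ω
          simp [hc]
        rw [e, fin_event, hLd]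
        exact (transfer (nu a b) P X hXm hXi hX k _).trans (h1 k hc hk)
      · have e : {ω | ¬ (C * Real.log N ≤ k → AllHit N k (C * Real.log N ^ 2 / k) (fun i => X i ω))} = ∅ := by
          ext ω
          simp [hc]
        rw [e, measure_empty]
        exact bot_le
    have g2 : P {ω | ¬ (Real.log N ^ (1 + δ) ≤ k → AllHit N k ((1 + E) * (Real.log N ^ 2 / ((a + b) / 2 * k)))
        (fun i => X i ω))} ≤ ENNReal.ofReal (1 / L ^ (A + 3)) := by
      by_cases hc : Real.log N ^ (1 + δ) ≤ k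
      · have e : {ω | ¬ (Real.log N ^ (1 + δ) ≤ k → AllHit N k ((1 + E) * (Real.log N ^ 2 / ((a + b) / 2 * k)))
            (fun i => X i ω))} =
            {ω | ¬ AllHit N k ((1 + E) * (Real.log N ^ 2 / ((a + b) / 2 * k))) (fun i => X i ω)} := by
          ext ω
          simp [hc]
        rw [e, fin_event, hLd]
        exact (transfer (nu a b) P X hXm hXi hX k _).trans (h2 k hc hk)
      · have e : {ω | ¬ (Real.log N ^ (1 + δ) ≤ k → AllHit N k ((1 + E) * (Real.log N ^ 2 / ((a + b) / 2 * k)))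
            (fun i => X i ω))} = ∅ := by
          ext ω
          simp [hc]
        rw [e, measure_empty]
        exact bot_le
    have g3 : P {ω | ¬ (Real.log N ^ (1 + δ) ≤ k → Missed N k ((1 - E) * (Real.log N ^ 2 / ((a + b) / 2 * k)))
        (fun i => X i ω))} ≤ ENNReal.ofReal (1 / L ^ (A + 3)) := by
      by_cases hc : Real.log N ^ (1 + δ) ≤ k
      · have e : {ω | ¬ (Real.log N ^ (1 + δ) ≤ k → Missed N k ((1 - E) * (Real.log N ^ 2 / ((a + b) / 2 * k)))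
            (fun i => X i ω))} =
            {ω | ¬ Missed N k ((1 - E) * (Real.log N ^ 2 / ((a + b) / 2 * k))) (fun i => X i ω)} := by
          ext ω
          simp [hc]
        rw [e, fin_event2, hLd]
        exact (transfer (nu a b) P X hXm hXi hX k _).trans (h3 k hc hk)
      · have e : {ω | ¬ (Real.log N ^ (1 + δ) ≤ k → Missed N k ((1 - E) * (Real.log N ^ 2 / ((a + b) / 2 * k)))
            (fun i => X i ω))} = ∅ := by
          ext ω
          simp [hc]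
        rw [e, measure_empty]
        exact bot_le
    have hsub : {ω | ¬ G1 a b C E δ N k (fun i => X i ω)} ⊆
        {ω | ¬ (C * Real.log N ≤ k → AllHit N k (C * Real.log N ^ 2 / k) (fun i => X i ω))} ∪
        ({ω | ¬ (Real.log N ^ (1 + δ) ≤ k → AllHit N k ((1 + E) * (Real.log N ^ 2 / ((a + b) / 2 * k)))
          (fun i => X i ω))} ∪ {ω | ¬ (Real.log N ^ (1 + δ) ≤ k →
            Missed N k ((1 - E) * (Real.log N ^ 2 / ((a + b) / 2 * k))) (fun i => X i ω))}) := by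
      intro ω hω
      rw [Set.mem_ofPred_eq] at hω
      simp only [Set.mem_union, Set.mem_ofPred_eq]
      by_contra hcon
      push Not at hcon
      exact hω ⟨hcon.1, fun h => ⟨hcon.2.1 h, hcon.2.2 h⟩⟩
    refine (measure_mono hsub).trans ((measure_union_le _ _).trans ((add_le_add g1 ((measure_union_le _ _).trans
      (add_le_add g2 g3))).trans ?_))
    have hL0 : 0 < L := by rw [hLd]; linarith
    rw [← ENNReal.ofReal_add (by positivity) (by positivity), ← ENNReal.ofReal_add (by positivity) (by positivity)]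
    apply ENNReal.ofReal_le_ofReal
    apply le_of_eq
    ring
  rw [← hLd] at hL1 ⊢
  have hL0 : 0 < L := by linarith
  obtain ⟨n, hn⟩ : ∃ n : ℕ, n = ⌊L ^ A⌋₊ + 1 := ⟨_, rfl⟩
  have hn2 : (n : ℝ) ≤ 2 * L ^ A := by
    rw [hn]
    push_cast
    have h1 := Nat.floor_le (show 0 ≤ L ^ A by positivity)
    have h2 : 1 ≤ L ^ A := one_le_pow₀ hL1
    linarith
  have hsub : {ω | ∃ k : ℕ, (k : ℝ) ≤ L ^ A ∧ ¬ G1 a b C E δ N k (fun i => X i ω)} ⊆
      ⋃ k ∈ range n, {ω | ¬ G1 a b C E δ N k (fun i => X i ω)} := by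
    rintro ω ⟨k, hk, hω⟩
    rw [Set.mem_iUnion₂]
    refine ⟨k, ?_, hω⟩
    rw [mem_range, hn, Nat.lt_succ_iff]
    exact Nat.le_floor hk
  refine (measure_mono hsub).trans ((measure_biUnion_finset_le _ _).trans ?_)
  calc ∑ k ∈ range n, P {ω | ¬ G1 a b C E δ N k (fun i => X i ω)} ≤ ∑ _k ∈ range n, ENNReal.ofReal (3 / L ^ (A + 3)) := by
        apply sum_le_sum
        intro k hk
        apply hG
        rw [mem_range, hn, Nat.lt_succ_iff] at hk
        refine le_trans ?_ (Nat.floor_le (show 0 ≤ L ^ A by positivity))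
        exact_mod_cast hk
    _ = ENNReal.ofReal ((n : ℝ) * (3 / L ^ (A + 3))) := by
        rw [sum_const, card_range, nsmul_eq_mul, ENNReal.ofReal_mul (Nat.cast_nonneg _), ENNReal.ofReal_natCast]
    _ ≤ _ := by
        apply ENNReal.ofReal_le_ofReal
        calc (n : ℝ) * (3 / L ^ (A + 3)) ≤ 2 * L ^ A * (3 / L ^ (A + 3)) := mul_le_mul_of_nonneg_right hn2 (by positivity)
          _ = 6 / L ^ 2 * (1 / L) := by
              rw [pow_add L A 3]
              field_simp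
              ring
          _ ≤ 6 / L ^ 2 * 1 := by
              apply mul_le_mul_of_nonneg_left _ (by positivity)
              rw [div_le_one hL0]
              exact hL1
          _ = _ := mul_one _

theorem almost (a b : ℝ) (ha : 0 < a) (hab : a < b) : ∃ C : ℝ, 0 < C ∧
    ∀ (Ω : Type) [MeasurableSpace Ω] (P : Measure Ω) [IsProbabilityMeasure P] (X : ℕ → Ω → ℝ),
      (∀ i, Measurable (X i)) → iIndepFun X P → (∀ i, P.map (X i) = nu a b) →
      ∀ᵐ ω ∂P, ∀ E δ : ℝ, 0 < E → E < 1 → 0 < δ → ∀ A : ℕ, ∀ᶠ m : ℕ in atTop, ∀ k : ℕ,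
        (k : ℝ) ≤ Real.log ((2 ^ m : ℕ) : ℝ) ^ A → G1 a b C E δ (2 ^ m) k (fun i => X i ω) := by
  classical
  obtain ⟨C, hC, h0⟩ := G1_prob a b ha hab
  refine ⟨C, hC, ?_⟩
  intro Ω _ P _ X hXm hXi hX
  have hb : 0 < b := ha.trans hab
  -- countably many parameters
  have key : ∀ n A : ℕ, ∀ᵐ ω ∂P, ∀ᶠ m : ℕ in atTop, ∀ k : ℕ,
      (k : ℝ) ≤ Real.log ((2 ^ m : ℕ) : ℝ) ^ A →
        G1 a b C (1 / (n + 2)) (1 / (n + 2)) (2 ^ m) k (fun i => X i ω) := by
    intro n A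
    have hn : (1 : ℝ) / (n + 2) ≤ 1 / 2 := one_div_le_one_div_of_le (by norm_num) (by linarith [Nat.cast_nonneg (α := ℝ) n])
    have hn0 : (0 : ℝ) < 1 / (n + 2) := by positivity
    have ht : Tendsto (fun m : ℕ => 2 ^ m) atTop atTop := tendsto_pow_atTop_atTop_of_one_lt (by norm_num)
    obtain ⟨m0, hm0⟩ := ((ht.eventually (h0 _ _ hn0 hn hn0 hn A)).and (eventually_ge_atTop 1)).exists_forall_of_atTop
    obtain ⟨s, hs⟩ : ∃ s : ℕ → Set Ω, s = fun m => if m0 ≤ m then {ω | ∃ k : ℕ,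
        (k : ℝ) ≤ Real.log ((2 ^ m : ℕ) : ℝ) ^ A ∧
          ¬ G1 a b C (1 / (n + 2)) (1 / (n + 2)) (2 ^ m) k (fun i => X i ω)} else ∅ := ⟨_, rfl⟩
    have hsP : ∀ m, P (s m) ≤ ENNReal.ofReal (24 * (1 / (m : ℝ) ^ 2)) := by
      intro m
      rw [hs]
      simp only
      split_ifs with hm
      · obtain ⟨h1, h2⟩ := hm0 m hm
        refine (h1 Ω P X hXm hXi hX).trans (ENNReal.ofReal_le_ofReal ?_)
        have hm1 : (0 : ℝ) < m := by exact_mod_cast h2
        have hlog : (m : ℝ) / 2 ≤ Real.log ((2 ^ m : ℕ) : ℝ) := by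
          push_cast
          rw [Real.log_pow]
          have := Real.log_two_gt_d9
          nlinarith
        have h9 : (m : ℝ) ^ 2 / 4 ≤ Real.log ((2 ^ m : ℕ) : ℝ) ^ 2 := by
          calc (m : ℝ) ^ 2 / 4 = ((m : ℝ) / 2) ^ 2 := by ring
            _ ≤ _ := pow_le_pow_left₀ (by positivity) hlog 2
        calc 6 / Real.log ((2 ^ m : ℕ) : ℝ) ^ 2 ≤ 6 / ((m : ℝ) ^ 2 / 4) :=
              div_le_div_of_nonneg_left (by positivity) (by positivity) h9
          _ = _ := by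
              field_simp
              ring
      · simp
    have hsum : ∑' m, P (s m) ≠ ∞ := by
      have h1 : Summable fun m : ℕ => 24 * (1 / (m : ℝ) ^ 2) :=
        (Real.summable_one_div_nat_pow.2 (by norm_num)).mul_left _
      exact ne_top_of_le_ne_top h1.tsum_ofReal_ne_top (ENNReal.tsum_le_tsum hsP)
    filter_upwards [ae_eventually_notMem hsum] with ω h2
    filter_upwards [h2, eventually_ge_atTop m0] with m h3 h4 k hk
    by_contra hcon
    apply h3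
    rw [hs]
    simp only
    rw [if_pos h4]
    exact ⟨k, hk, hcon⟩
  have key2 : ∀ᵐ ω ∂P, ∀ n A : ℕ, ∀ᶠ m : ℕ in atTop, ∀ k : ℕ,
      (k : ℝ) ≤ Real.log ((2 ^ m : ℕ) : ℝ) ^ A →
        G1 a b C (1 / (n + 2)) (1 / (n + 2)) (2 ^ m) k (fun i => X i ω) := by
    rw [ae_all_iff]
    intro n
    rw [ae_all_iff]
    intro A
    exact key n A
  filter_upwards [key2] with ω h1
  intro E δ hE hE1 hδ A
  obtain ⟨n, hn⟩ : ∃ n : ℕ, 1 / min E δ ≤ n := exists_nat_ge _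
  have hmin : 0 < min E δ := lt_min hE hδ
  have hn2 : (1 : ℝ) / (n + 2) ≤ min E δ := by
    rw [div_le_iff₀ hmin] at hn
    rw [div_le_iff₀ (by positivity)]
    linarith
  have hnE := hn2.trans (min_le_left _ _)
  have hnδ := hn2.trans (min_le_right _ _)
  have hn0 : (0 : ℝ) < 1 / (n + 2) := by positivity
  have ht : Tendsto (fun m : ℕ => 2 ^ m) atTop atTop := tendsto_pow_atTop_atTop_of_one_lt (by norm_num)
  filter_upwards [h1 n A, ht.eventually (ev_L 1), eventually_ge_atTop 1] with m h2 hL1 hm1 k hk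
  obtain ⟨g1, g2⟩ := h2 k hk
  refine ⟨g1, fun hk2 => ?_⟩
  have hL0 : 0 < Real.log ((2 ^ m : ℕ) : ℝ) := by linarith
  have hk3 : Real.log ((2 ^ m : ℕ) : ℝ) ^ (1 + (1 : ℝ) / (n + 2)) ≤ k := by
    refine le_trans ?_ hk2
    exact Real.rpow_le_rpow_of_exponent_le hL1 (by linarith)
  obtain ⟨g3, g4⟩ := g2 hk3
  have hk0 : (0 : ℝ) < k := lt_of_lt_of_le (by positivity) hk3
  obtain ⟨w, hw⟩ : ∃ w : ℝ, w = Real.log ((2 ^ m : ℕ) : ℝ) ^ 2 / ((a + b) / 2 * k) := ⟨_, rfl⟩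
  have hw0 : 0 ≤ w := by rw [hw]; positivity
  rw [← hw] at g3 g4 ⊢
  have hN0 : (0 : ℝ) < ((2 ^ m : ℕ) : ℝ) := by positivity
  have hn12 : (1 : ℝ) / (n + 2) ≤ 1 := by
    rw [div_le_one (by positivity)]
    linarith [Nat.cast_nonneg (α := ℝ) n]
  constructor
  · intro t ht1 ht2
    obtain ⟨i, hi, h5⟩ := g3 t ht1 ht2
    refine ⟨i, hi, Hit.mono (by linarith) (by positivity) ?_ h5⟩
    exact mul_le_mul_of_nonneg_right (by linarith) hw0
  · obtain ⟨t, ht1, ht2, h5⟩ := g4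
    have h6 : (1 - E) * w ≤ (1 - 1 / (n + 2)) * w := mul_le_mul_of_nonneg_right (by linarith) hw0
    refine ⟨t, ht1, by linarith, fun i hi h7 => h5 i hi ?_⟩
    exact Hit.mono (by linarith) (mul_nonneg (by linarith) hw0) h6 h7

end Pool.Agent.NH15.SD
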